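import Pool.Agent.W186.SX.Fw

set_option autoImplicit false

/-!
# Shifted sums: subconvexity to the left of the last zero
-/

namespace Pool.Agent.W186.SX

open Complex Filter Topology MeasureTheory Set
open Pool.Agent.H24R2.JP (XX HH Om)
open Pool.Agent.W186.HZ
open Pool.Agent.W186.DX (AF F_zero F F_half F_fin)
open Pool.Agent.W186.SN (plk)

lemma zeta_ct {y : ℝ} (h : CT y) {e : ℝ} (he : 0 < e) (he1 : e ≤ 1) (hye : y + e ≤ 1) : ∃ T0 : ℝ, 400 ≤ T0 ∧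
    ∀ t : ℝ, T0 ≤ t → ‖riemannZeta (((1 / 2 + (y + e) : ℝ) : ℂ) + t * I)‖ ≤ t ^ e := by
  obtain ⟨T2, hT2, hW⟩ := h e 1 he he1 le_rfl
  refine ⟨T2, hT2, fun t ht => ?_⟩
  have him : (((y + e : ℝ) : ℂ) + t * I).im = t := by simp
  have hre : (((y + e : ℝ) : ℂ) + t * I).re = y + e := by simp
  obtain ⟨a1, -, -, a4⟩ := hW t ht (((y + e : ℝ) : ℂ) + t * I) (by rw [hre]) (by rw [hre]; exact hye) him
  rw [F_zero, Pool.Agent.H24R2.JP.zetaS.1 _ (by rw [him]; linarith)] at a1 a4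
  have hH : HH (((y + e : ℝ) : ℂ) + t * I) ≠ 0 := left_ne_zero_of_mul a1
  rw [norm_mul] at a4
  have a5 := le_of_mul_le_mul_right ((le_of_eq (mul_comm _ _)).trans a4) (norm_pos_iff.2 hH)
  have e1 : (1 / 2 + (((y + e : ℝ) : ℂ) + t * I)) = ((1 / 2 + (y + e) : ℝ) : ℂ) + t * I := by push_cast; ring
  rw [e1] at a5
  rw [Real.rpow_def_of_pos (by linarith), mul_comm (Real.log t)]
  exact a5

/-- interpolation between the critical line and the edge -/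
lemma mid {p C y e r : ℝ} (hp : 0 < p) (hcr : ∀ t : ℝ, 1 ≤ |t| →
    ‖riemannZeta (((1 / 2 : ℝ) : ℂ) + t * I)‖ ≤ C * |t| ^ (p / 2)) (hy0 : 0 ≤ y) (hy1 : y ≤ 1 / 2) (hct : CT y)
    (he : 0 < e) (he1 : e ≤ 1 / 2) (hr : 0 ≤ r) (hr1 : r ≤ y + e) : ∃ C' : ℝ, 0 < C' ∧ ∀ t : ℝ, 1 ≤ |t| →
    ‖riemannZeta (((1 / 2 + r : ℝ) : ℂ) + t * I)‖ ≤
      C' * |t| ^ ((1 - r / (y + e)) * (p / 2) + r / (y + e) * (2 * e)) := by
  obtain ⟨T2, hT2, hz⟩ := zeta_ct hct he (by linarith) (by linarith)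
  have hex : Pool.Agent.W186.LH.Ex (1 / 2 + (y + e)) e := by
    refine Pool.Agent.W186.LH.Ex_of _ _ he.le fun ε hε => ⟨T2, fun t ht => (hz t ht).trans ?_⟩
    exact Real.rpow_le_rpow_of_exponent_le (by linarith) (by linarith)
  obtain ⟨C2, hC2⟩ := hex e he
  rw [← two_mul] at hC2
  obtain ⟨A, hA, hA'⟩ := FF_line (σ := 1 / 2) (by norm_num) (by norm_num) (by linarith : 0 ≤ p / 2) hcr
  obtain ⟨B, hB, hB'⟩ := FF_line (σ := 1 / 2 + (y + e)) (by linarith) (by linarith) (by linarith : 0 ≤ 2 * e) hC2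
  obtain ⟨C3, hC3, hi⟩ := interp (l := 1 / 2) (u := 1 / 2 + (y + e)) (by norm_num) (by linarith) (by linarith)
    (by linarith : 0 ≤ 1 + p / 2) (by linarith : 0 ≤ 1 + 2 * e) hA' hB'
  obtain ⟨θ, hθ⟩ : ∃ θ : ℝ, θ = r / (y + e) := ⟨_, rfl⟩
  have hθ0 : 0 ≤ θ := by rw [hθ]; positivity
  have hθ1 : θ ≤ 1 := by rw [hθ, div_le_one (by linarith)]; exact hr1
  obtain ⟨ν, hν⟩ : ∃ ν : ℝ, ν = (1 - θ) * (p / 2) + θ * (2 * e) := ⟨_, rfl⟩
  have hν0 : 0 ≤ ν := by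
    rw [hν]
    have : 0 ≤ (1 - θ) * (p / 2) := mul_nonneg (by linarith) (by linarith)
    have : 0 ≤ θ * (2 * e) := mul_nonneg hθ0 (by linarith)
    linarith
  rw [← hθ, ← hν]
  refine ⟨C3 * 2 ^ (1 + ν), by positivity, fun t ht => ?_⟩
  have h1 := hi (1 / 2 + r) (by linarith) (by linarith) t
  have e1 : (1 - (1 / 2 + r - 1 / 2) / (1 / 2 + (y + e) - 1 / 2)) * (1 + p / 2) +
      (1 / 2 + r - 1 / 2) / (1 / 2 + (y + e) - 1 / 2) * (1 + 2 * e) = 1 + ν := by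
    rw [add_sub_cancel_left, add_sub_cancel_left, ← hθ, hν]
    ring
  rw [e1] at h1
  have hs1 : ((1 / 2 + r : ℝ) : ℂ) + t * I ≠ 1 := by
    intro h
    have := congrArg Complex.im h
    simp at this
    rw [this] at ht
    simp at ht
    linarith
  have hFF : H353.FF (((1 / 2 + r : ℝ) : ℂ) + t * I) =
      (((1 / 2 + r : ℝ) : ℂ) + t * I - 1) * riemannZeta (((1 / 2 + r : ℝ) : ℂ) + t * I) := ZU.J_g2b.FF_ne hs1
  rw [hFF, norm_mul] at h1
  have h2 : |t| ≤ ‖((1 / 2 + r : ℝ) : ℂ) + t * I - 1‖ := by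
    have := abs_im_le_norm (((1 / 2 + r : ℝ) : ℂ) + t * I - 1)
    simpa using this
  have ht0 : 0 < |t| := by linarith
  have h3 : |t| * ‖riemannZeta (((1 / 2 + r : ℝ) : ℂ) + t * I)‖ ≤ |t| * (C3 * 2 ^ (1 + ν) * |t| ^ ν) := by
    calc |t| * ‖riemannZeta (((1 / 2 + r : ℝ) : ℂ) + t * I)‖
        ≤ ‖((1 / 2 + r : ℝ) : ℂ) + t * I - 1‖ * ‖riemannZeta (((1 / 2 + r : ℝ) : ℂ) + t * I)‖ :=
          mul_le_mul_of_nonneg_right h2 (norm_nonneg _)
      _ ≤ C3 * (1 + |t|) ^ (1 + ν) := h1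
      _ ≤ C3 * (2 * |t|) ^ (1 + ν) := by
          apply mul_le_mul_of_nonneg_left _ (by linarith)
          apply Real.rpow_le_rpow (by linarith) (by linarith) (by linarith)
      _ = |t| * (C3 * 2 ^ (1 + ν) * |t| ^ ν) := by
          rw [Real.mul_rpow (by norm_num) ht0.le, Real.rpow_add ht0 1 ν, Real.rpow_one]
          ring
  exact le_of_mul_le_mul_left h3 ht0

theorem sub {p C : ℝ} (hp : 0 < p) (hcr : ∀ t : ℝ, 1 ≤ |t| →
    ‖riemannZeta (((1 / 2 : ℝ) : ℂ) + t * I)‖ ≤ C * |t| ^ (p / 2)) {y : ℝ} (hpy : p < y) (hy1 : y ≤ 1 / 2)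
    (hct : CT y) {ω : ℝ} (hω : 0 < ω) (hω1 : ω < y) : ∃ κ T0 : ℝ, 0 < κ ∧ κ ≤ 1 ∧ 410 ≤ T0 ∧
    ∀ (T : ℝ) (w : ℂ), T0 ≤ T → |w.re| ≤ y - ω → |w.im| ≤ 10 →
      ‖XX (I * T + w)‖ ≤ Real.exp (Om T * (y - κ)) * ‖HH (I * T)‖ := by
  obtain ⟨κ, hκ⟩ : ∃ κ : ℝ, κ = ω * (y - p) := ⟨_, rfl⟩
  have hκ0 : 0 < κ := by rw [hκ]; exact mul_pos hω (by linarith)
  have hκ1 : κ ≤ 1 / 4 := by rw [hκ]; nlinarith
  obtain ⟨e, he⟩ : ∃ e : ℝ, e = κ / 8 := ⟨_, rfl⟩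
  have he0 : 0 < e := by rw [he]; linarith
  obtain ⟨r, hr⟩ : ∃ r : ℝ, r = y - ω := ⟨_, rfl⟩
  have hr0 : 0 < r := by rw [hr]; linarith
  have hye : 0 < y + e := by linarith
  obtain ⟨C', hC', hz⟩ := mid hp hcr (by linarith) hy1 hct he0 (by linarith) hr0.le (by linarith)
  obtain ⟨θ, hθ⟩ : ∃ θ : ℝ, θ = r / (y + e) := ⟨_, rfl⟩
  have hθ0 : 0 ≤ θ := by rw [hθ]; positivity
  have hθ1 : θ ≤ 1 := by rw [hθ, div_le_one hye]; linarith
  obtain ⟨ν, hν⟩ : ∃ ν : ℝ, ν = (1 - θ) * (p / 2) + θ * (2 * e) := ⟨_, rfl⟩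
  rw [← hθ, ← hν] at hz
  have hν0 : 0 ≤ ν := by
    rw [hν]
    have : 0 ≤ (1 - θ) * (p / 2) := mul_nonneg (by linarith) (by linarith)
    have : 0 ≤ θ * (2 * e) := mul_nonneg hθ0 (by linarith)
    linarith
  have hν1 : ν ≤ 1 := by
    rw [hν]
    have : (1 - θ) * (p / 2) ≤ 1 * (p / 2) := mul_le_mul_of_nonneg_right (by linarith) (by linarith)
    have : θ * (2 * e) ≤ 1 * (2 * e) := mul_le_mul_of_nonneg_right hθ1 (by linarith)
    linarith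
  have hkey : r + 2 * ν ≤ y - κ := by
    have h1 : θ * (y + e) = r := by rw [hθ]; field_simp
    have h2 : 1 - θ = (ω + e) / (y + e) := by
      rw [eq_div_iff hye.ne', sub_mul, one_mul, h1, hr]; ring
    have h3 : (1 - θ) * p ≤ (ω + e) * (p / y) := by
      rw [h2, div_mul_eq_mul_div, mul_div_assoc]
      apply mul_le_mul_of_nonneg_left _ (by linarith)
      exact div_le_div_of_nonneg_left hp.le (by linarith) (by linarith)
    have h4 : p / y ≤ 1 := by rw [div_le_one (by linarith)]; exact hpy.le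
    have h5 : 2 * κ ≤ ω * (1 - p / y) := by
      have : 1 - p / y = (y - p) / y := by
        rw [sub_div, div_self (by linarith)]
      rw [this, ← mul_div_assoc, ← hκ, le_div_iff₀ (by linarith)]
      nlinarith
    have h6 : θ * (2 * e) ≤ 2 * e := by nlinarith
    have h7 : e * (p / y) ≤ e := by nlinarith
    rw [hν, hr]
    nlinarith
  have hup := up_of (fun _ => r + 2 * ν) r (r + 2 * ν) (fun _ _ _ => by rw [abs_of_nonneg (by linarith)])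
    (fun ε hε => by
      obtain ⟨T0, hT0, hb⟩ := plk r ν C' hr0 (by linarith) hν0 hν1 hC' (by
        intro t ht
        have h3 := hz t (by rw [abs_of_nonneg (by linarith)]; linarith)
        rw [abs_of_nonneg (by linarith : 0 ≤ t)] at h3
        have e : (1 / 2 + ((r : ℝ) : ℂ) + t * I) = ((1 / 2 + r : ℝ) : ℂ) + t * I := by
          push_cast; ring
        rw [e]
        exact h3) ε hε
      exact ⟨T0, fun T r' hT h0 h1 => hb T hT r' (by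
        rw [Complex.ofReal_re, abs_of_nonneg h0]; exact h1) (by simp)⟩) (κ / 2) (by linarith)
  obtain ⟨T0, hT0, hu⟩ := hup
  refine ⟨κ / 2, T0, by linarith, by linarith, hT0, fun T w hT hw1 hw2 => ?_⟩
  refine (hu T w hT (by rw [hr]; exact hw1) hw2).trans ?_
  have hOp : 0 ≤ Om T := by
    unfold Om
    have := Real.log_nonneg (show (1 : ℝ) ≤ T by linarith)
    linarith
  apply mul_le_mul_of_nonneg_right _ (norm_nonneg _)
  apply Real.exp_le_exp.2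
  apply mul_le_mul_of_nonneg_left _ hOp
  linarith

end Pool.Agent.W186.SX
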