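import Pool.Agent.W186.SX.Sub

set_option autoImplicit false

/-!
# Shifted sums: the backward direction
-/

namespace Pool.Agent.W186.SX

open Complex Filter Topology MeasureTheory Set
open Pool.Agent.H24R2.JP (XX HH Om)
open Pool.Agent.W186.HZ
open Pool.Agent.W186.DX (AF F_zero F F_half F_fin)

lemma Om_nn {T : ℝ} (hT : 1 ≤ T) : 0 ≤ Om T := by
  unfold Om
  have := Real.log_nonneg hT
  linarith

/-- crude and sharp bounds for the sum to the right -/
lemma BB_base {n : ℕ} (a : Fin n → ℂ) (g : Fin n → ℝ) {γ : ℝ} (hγ : 0 < γ) (hγ1 : γ ≤ 1) (hg0 : ∀ j, γ ≤ g j)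
    (hg1 : ∀ j, g j ≤ 1) (ε : ℝ) (hε : 0 < ε) : ∃ T0 : ℝ, 410 ≤ T0 ∧ ∀ (T : ℝ) (w : ℂ), T0 ≤ T → 0 ≤ w.re →
      w.re ≤ 11 → |w.im| ≤ 10 → ‖BB a g (I * T + w)‖ ≤ Real.exp (14 * Om T) * ‖HH (I * T)‖ ∧
      (3 / 2 ≤ w.re → Real.exp (Om T * (w.re - ε)) * ‖HH (I * T)‖ ≤ ‖BB a g (I * T + w)‖ ∧
        ‖BB a g (I * T + w)‖ ≤ Real.exp (Om T * (w.re + ε)) * ‖HH (I * T)‖) := by
  obtain ⟨κ, hκ⟩ : ∃ κ : ℝ, κ = min (ε / 2) (γ / 4) := ⟨_, rfl⟩
  have hκ0 : 0 < κ := by rw [hκ]; exact lt_min (by linarith) (by linarith)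
  have hκ1 : κ ≤ ε / 2 := by rw [hκ]; exact min_le_left _ _
  have hκ2 : κ ≤ γ / 4 := by rw [hκ]; exact min_le_right _ _
  have hA := AA_nonneg a
  obtain ⟨T1, hT1, hu⟩ := up_prof (y := 1 / 2) (by norm_num) le_rfl ct_half κ 12 hκ0 (by norm_num)
  obtain ⟨T2, hT2, hl⟩ := low_prof (y := 1 / 2) (by norm_num) ct_half κ 12 hκ0 (by norm_num)
  obtain ⟨T3, hs⟩ := small_ev (AA a) (γ / 2) hA (by linarith)
  obtain ⟨T4, hT4, hO⟩ := Om_large (max (AA a) (1 / κ))
  refine ⟨max (max T1 T2) (max T3 T4), hT1.trans ((le_max_left _ _).trans (le_max_left _ _)),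
    fun T w hT hw0 hw1 hw2 => ?_⟩
  have g1 : T1 ≤ T := ((le_max_left _ _).trans (le_max_left _ _)).trans hT
  have g2 : T2 ≤ T := ((le_max_right _ _).trans (le_max_left _ _)).trans hT
  have g3 : T3 ≤ T := ((le_max_left _ _).trans (le_max_right _ _)).trans hT
  have g4 : T4 ≤ T := ((le_max_right _ _).trans (le_max_right _ _)).trans hT
  have hO1 : AA a ≤ Om T := (le_max_left _ _).trans (hO T g4)
  have hO2 : 1 / κ ≤ Om T := (le_max_right _ _).trans (hO T g4)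
  rw [div_le_iff₀ hκ0] at hO2
  have hOp : 0 ≤ Om T := Om_nn (by linarith)
  have hTp : 0 < T := by linarith
  have him : 0 < (I * (T : ℂ)).im := by simpa using hTp
  have hHp : 0 < ‖HH (I * T)‖ := norm_pos_iff.2 (Pool.Agent.H24R2.JP.StirAux.HH_ne him)
  have hmono : ∀ a b : ℝ, a ≤ b → Real.exp (Om T * a) * ‖HH (I * T)‖ ≤ Real.exp (Om T * b) * ‖HH (I * T)‖ := by
    intro a b hab
    have := Real.exp_le_exp.2 (mul_le_mul_of_nonneg_left hab hOp)
    gcongr
  have hre : ∀ j, (w - (g j : ℂ)).re = w.re - g j := fun j => by simp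
  have him2 : ∀ j, (w - (g j : ℂ)).im = w.im := fun j => by simp
  have hu0 : ‖XX (I * T + w)‖ ≤ Real.exp (Om T * (max |w.re| (1 / 2) + κ)) * ‖HH (I * T)‖ :=
    hu T w g1 (by rw [abs_of_nonneg hw0]; linarith) hw2
  rw [abs_of_nonneg hw0] at hu0
  have huj : ∀ j, ‖XX (I * T + w - g j)‖ ≤ Real.exp (Om T * (max |w.re - g j| (1 / 2) + κ)) * ‖HH (I * T)‖ := by
    intro j
    have h1 := hg0 j
    have h2 := hg1 j
    have := hu T (w - g j) g1 (by rw [hre, abs_le]; constructor <;> linarith) (by rw [him2]; exact hw2)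
    rw [hre] at this
    rw [← add_sub_assoc] at this
    exact this
  have he1 : 1 + AA a ≤ Real.exp (Om T) := by
    have := Real.add_one_le_exp (Om T)
    linarith
  refine ⟨?_, fun hw3 => ?_⟩
  · have h1 := sum_bd a g (I * T + w) (Real.exp (Om T * 13) * ‖HH (I * T)‖) fun j => (huj j).trans (hmono _ _ (by
      have h1 := hg0 j
      have h2 := hg1 j
      have : max |w.re - g j| (1 / 2) ≤ 12 := max_le (by rw [abs_le]; constructor <;> linarith) (by norm_num)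
      linarith))
    have h2 : ‖XX (I * T + w)‖ ≤ Real.exp (Om T * 13) * ‖HH (I * T)‖ := hu0.trans (hmono _ _ (by
      have : max w.re (1 / 2) ≤ 12 := max_le (by linarith) (by norm_num)
      linarith))
    unfold BB
    refine (norm_add_le _ _).trans ?_
    calc ‖XX (I * T + w)‖ + ‖∑ j, a j * XX (I * T + w - g j)‖
        ≤ (1 + AA a) * (Real.exp (Om T * 13) * ‖HH (I * T)‖) := by linarith
      _ ≤ Real.exp (Om T) * (Real.exp (Om T * 13) * ‖HH (I * T)‖) :=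
          mul_le_mul_of_nonneg_right he1 (by positivity)
      _ = Real.exp (14 * Om T) * ‖HH (I * T)‖ := by
          rw [← mul_assoc, ← Real.exp_add]; congr 2; ring
  · have hl0 := hl T w g2 (by linarith) (by linarith) hw2
    rw [max_eq_left (by linarith : 1 / 2 ≤ w.re)] at hu0
    have h1 := sum_bd a g (I * T + w) (Real.exp (Om T * (w.re - 3 * γ / 4)) * ‖HH (I * T)‖) fun j =>
      (huj j).trans (hmono _ _ (by
      have h1 := hg0 j
      have h2 := hg1 j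
      have : max |w.re - g j| (1 / 2) ≤ w.re - γ := max_le (by rw [abs_le]; constructor <;> linarith) (by linarith)
      linarith))
    have e5 : Real.exp (Om T * (w.re - 3 * γ / 4)) = Real.exp (-(Om T * (γ / 2))) * Real.exp (Om T * (w.re - γ / 4)) := by
      rw [← Real.exp_add]; congr 1; ring
    have hs' := hs T g3
    have h3 : ‖∑ j, a j * XX (I * T + w - g j)‖ ≤ 1 / 2 * (Real.exp (Om T * (w.re - κ)) * ‖HH (I * T)‖) := by
      refine h1.trans ?_
      rw [e5]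
      calc AA a * (Real.exp (-(Om T * (γ / 2))) * Real.exp (Om T * (w.re - γ / 4)) * ‖HH (I * T)‖)
          = (AA a * Real.exp (-(Om T * (γ / 2)))) * (Real.exp (Om T * (w.re - γ / 4)) * ‖HH (I * T)‖) := by ring
        _ ≤ 1 / 2 * (Real.exp (Om T * (w.re - γ / 4)) * ‖HH (I * T)‖) :=
            mul_le_mul_of_nonneg_right hs' (by positivity)
        _ ≤ _ := by
            apply mul_le_mul_of_nonneg_left _ (by norm_num)
            exact hmono _ _ (by linarith)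
    have h2e : 2 ≤ Real.exp (Om T * κ) := by
      have := Real.add_one_le_exp (Om T * κ)
      linarith
    have hsum := abs_norm_sub_norm_le (XX (I * T + w)) (-∑ j, a j * XX (I * T + w - g j))
    rw [sub_neg_eq_add, norm_neg, abs_le] at hsum
    have hsum2 := norm_add_le (XX (I * T + w)) (∑ j, a j * XX (I * T + w - g j))
    unfold BB
    constructor
    · have h4 : Real.exp (Om T * (w.re - ε)) * ‖HH (I * T)‖ ≤
          1 / 2 * (Real.exp (Om T * (w.re - κ)) * ‖HH (I * T)‖) := by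
        have e6 : Real.exp (Om T * (w.re - κ)) = Real.exp (Om T * κ) * Real.exp (Om T * (w.re - 2 * κ)) := by
          rw [← Real.exp_add]; congr 1; ring
        refine (hmono _ (w.re - 2 * κ) (by linarith)).trans ?_
        rw [e6]
        have : 0 < Real.exp (Om T * (w.re - 2 * κ)) * ‖HH (I * T)‖ := by positivity
        nlinarith
      linarith
    · have h4 : 3 / 2 * (Real.exp (Om T * (w.re + κ)) * ‖HH (I * T)‖) ≤
          Real.exp (Om T * (w.re + ε)) * ‖HH (I * T)‖ := by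
        have e6 : Real.exp (Om T * (w.re + 2 * κ)) = Real.exp (Om T * κ) * Real.exp (Om T * (w.re + κ)) := by
          rw [← Real.exp_add]; congr 1; ring
        refine le_trans ?_ (hmono (w.re + 2 * κ) _ (by linarith))
        rw [e6]
        have : 0 < Real.exp (Om T * (w.re + κ)) * ‖HH (I * T)‖ := by positivity
        nlinarith
      have h5 := hmono (w.re - κ) (w.re + κ) (by linarith)
      linarith

/-- lower bound to the right of the zeros of the sum -/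
lemma zfB {n : ℕ} (a : Fin n → ℂ) (g : Fin n → ℝ) {γ : ℝ} (hγ : 0 < γ) (hγ1 : γ ≤ 1) (hg0 : ∀ j, γ ≤ g j)
    (hg1 : ∀ j, g j ≤ 1) {y : ℝ} (hy0 : 0 ≤ y) (hy1 : y ≤ 1 / 2) (h : AFB a g y) (η : ℝ) (hη : 0 < η)
    (hη1 : η ≤ 1 / 2) : ∃ T0 : ℝ, 410 ≤ T0 ∧ ∀ T x : ℝ, T0 ≤ T → y + η ≤ x → x ≤ 3 →
      Real.exp (Om T * (x - η)) * ‖HH (I * T)‖ ≤ ‖BB a g (I * T + x)‖ := by
  obtain ⟨y', hy'⟩ : ∃ y' : ℝ, y' = y + η / 2 := ⟨_, rfl⟩
  obtain ⟨ε', hε', hsab⟩ := Pool.Agent.H986R2.K4.sab (η / 2) (η / 2) 14 (by linarith) (by linarith) (by linarith)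
    (by norm_num)
  obtain ⟨T1, hT1, hb⟩ := BB_base a g hγ hγ1 hg0 hg1 ε' hε'
  obtain ⟨H, hH⟩ : ∃ H : ℝ, ∀ z ∈ {z : ℂ | y + η / 2 < z.re ∧ BB a g z = 0}, z.im ≤ H := by
    have := (h (η / 2) (by linarith)).image Complex.im
    obtain ⟨H, hH⟩ := this.bddAbove
    exact ⟨H, fun z hz => hH ⟨z, hz, rfl⟩⟩
  obtain ⟨T4, hT4, hO⟩ := Om_large 1
  refine ⟨max (max T1 T4) (H + 11), hT1.trans ((le_max_left _ _).trans (le_max_left _ _)), fun T x hT hx0 hx1 => ?_⟩
  have g1 : T1 ≤ T := ((le_max_left _ _).trans (le_max_left _ _)).trans hT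
  have g2 : T4 ≤ T := ((le_max_right _ _).trans (le_max_left _ _)).trans hT
  have g3 : H + 11 ≤ T := (le_max_right _ _).trans hT
  have hO1 := hO T g2
  have hTp : 0 < T := by linarith
  have him : 0 < (I * (T : ℂ)).im := by simpa using hTp
  have hHp : 0 < ‖HH (I * T)‖ := norm_pos_iff.2 (Pool.Agent.H24R2.JP.StirAux.HH_ne him)
  obtain ⟨G, hG⟩ : ∃ G : ℂ → ℂ, G = fun u => BB a g (I * T + (y' + u)) * cexp (-(Om T : ℂ) * (y' + u)) *
    (((‖HH (I * T)‖)⁻¹ : ℝ) : ℂ) := ⟨_, rfl⟩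
  have hGd : Differentiable ℂ G := by
    rw [hG]
    have h2 : Differentiable ℂ fun u : ℂ => BB a g (I * T + (y' + u)) := (BB_diff a g).comp (by fun_prop)
    exact (h2.mul (by fun_prop)).mul_const _
  have hGn : ∀ u : ℂ, ‖G u‖ = ‖BB a g (I * T + (y' + u))‖ * Real.exp (-(Om T * (y' + u.re))) * (‖HH (I * T)‖)⁻¹ := by
    intro u
    rw [hG]
    simp only
    rw [norm_mul, norm_mul, Complex.norm_exp, Complex.norm_real, Real.norm_eq_abs,
      abs_of_pos (inv_pos.2 hHp)]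
    congr 3
    simp
  have hw : ∀ u : ℂ, ((y' : ℂ) + u).re = y' + u.re ∧ ((y' : ℂ) + u).im = u.im := fun u => by simp
  have hcan : ∀ (A B : ℝ), Real.exp A * ‖HH (I * T)‖ * Real.exp B * (‖HH (I * T)‖)⁻¹ = Real.exp (A + B) := by
    intro A B
    rw [Real.exp_add]
    field_simp
  have key := hsab (Om T) G hO1 (by
    intro u hu0 hu1 hu2
    obtain ⟨w1, w2⟩ := hw u
    refine ⟨hGd u, ?_, ?_⟩
    · rw [hG]
      simp only
      refine mul_ne_zero (mul_ne_zero ?_ (Complex.exp_ne_zero _)) ?_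
      · intro h0
        have h5 := hH (I * T + (y' + u)) ⟨by
          have : (I * (T : ℂ) + (y' + u)).re = y' + u.re := by simp
          rw [this, hy']; linarith, h0⟩
        have h6 : (I * (T : ℂ) + (y' + u)).im = T + u.im := by simp
        rw [h6] at h5
        have := (abs_le.1 hu2).1
        linarith
      · rw [Complex.ofReal_ne_zero]
        exact (inv_pos.2 hHp).ne'
    · rw [hGn]
      have h5 := (hb T (y' + u) g1 (by rw [w1]; linarith) (by rw [w1]; linarith) (by rw [w2]; exact hu2)).1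
      calc ‖BB a g (I * T + (y' + u))‖ * Real.exp (-(Om T * (y' + u.re))) * (‖HH (I * T)‖)⁻¹
          ≤ Real.exp (14 * Om T) * ‖HH (I * T)‖ * Real.exp (-(Om T * (y' + u.re))) * (‖HH (I * T)‖)⁻¹ := by
            gcongr
        _ = Real.exp (14 * Om T + -(Om T * (y' + u.re))) := hcan _ _
        _ ≤ Real.exp (14 * Om T) := by
            apply Real.exp_le_exp.2
            have : 0 ≤ Om T * (y' + u.re) := mul_nonneg (by linarith) (by linarith)
            linarith) (by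
    intro u hu0 hu1 hu2
    obtain ⟨w1, w2⟩ := hw u
    obtain ⟨h5, h6⟩ := (hb T (y' + u) g1 (by rw [w1]; linarith) (by rw [w1]; linarith) (by rw [w2]; exact hu2)).2
      (by rw [w1]; linarith)
    rw [w1] at h5 h6
    rw [hGn]
    constructor
    · calc Real.exp (-(ε' * Om T)) = Real.exp (Om T * (y' + u.re - ε') + -(Om T * (y' + u.re))) := by
            congr 1; ring
        _ = Real.exp (Om T * (y' + u.re - ε')) * ‖HH (I * T)‖ * Real.exp (-(Om T * (y' + u.re))) *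
            (‖HH (I * T)‖)⁻¹ := (hcan _ _).symm
        _ ≤ _ := by gcongr
    · calc ‖BB a g (I * T + (y' + u))‖ * Real.exp (-(Om T * (y' + u.re))) * (‖HH (I * T)‖)⁻¹
          ≤ Real.exp (Om T * (y' + u.re + ε')) * ‖HH (I * T)‖ * Real.exp (-(Om T * (y' + u.re))) *
            (‖HH (I * T)‖)⁻¹ := by gcongr
        _ = Real.exp (Om T * (y' + u.re + ε') + -(Om T * (y' + u.re))) := hcan _ _
        _ = Real.exp (ε' * Om T) := by congr 1; ring) ((x - y' : ℝ) : ℂ)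
      (by rw [Complex.ofReal_re]; linarith) (by rw [Complex.ofReal_re]; linarith) (by simp)
  obtain ⟨-, k2, -⟩ := key
  rw [hGn, Complex.ofReal_re] at k2
  have e7 : (y' : ℂ) + ((x - y' : ℝ) : ℂ) = (x : ℂ) := by push_cast; ring
  have e8 : y' + (x - y') = x := by ring
  rw [e7, e8] at k2
  have k3 : Real.exp (-(η / 2 * Om T)) * (Real.exp (Om T * x) * ‖HH (I * T)‖) ≤ ‖BB a g (I * T + x)‖ := by
    have h5 := mul_le_mul_of_nonneg_right k2 (by positivity : 0 ≤ Real.exp (Om T * x) * ‖HH (I * T)‖)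
    refine h5.trans (le_of_eq ?_)
    rw [Real.exp_neg]
    field_simp
  refine le_trans ?_ k3
  rw [← mul_assoc, ← Real.exp_add]
  have : Real.exp (Om T * (x - η)) ≤ Real.exp (-(η / 2 * Om T) + Om T * x) := by
    apply Real.exp_le_exp.2
    nlinarith
  gcongr

lemma AF_of {b : ℝ} {T0 : ℝ} (h : ∀ T x : ℝ, T0 ≤ T → b ≤ x → x ≤ 1 / 2 → XX (I * T + x) ≠ 0) : AF 0 b := by
  intro ε hε
  refine (F_fin 0 b (1 / 2) T0).subset fun z hz => ?_
  obtain ⟨h1, h2⟩ := hz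
  have h3 := (abs_le.1 (F_half h2)).2
  refine ⟨by linarith, h3, ?_, h2⟩
  by_contra hc
  push Not at hc
  have e0 : ∀ v : ℂ, F 0 v = XX v := fun v => by rw [F_zero]
  rcases le_total 0 z.im with h4 | h4
  · rw [abs_of_nonneg h4] at hc
    apply h z.im z.re hc.le (by linarith) (by linarith)
    have e : I * (z.im : ℂ) + ((z.re : ℝ) : ℂ) = z := by
      apply Complex.ext <;> simp
    rw [e, ← e0]; exact h2
  · rw [abs_of_nonpos h4] at hc
    apply h (-z.im) z.re hc.le (by linarith) (by linarith)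
    have e : I * ((-z.im : ℝ) : ℂ) + ((z.re : ℝ) : ℂ) = (starRingEnd ℂ) z := by
      apply Complex.ext <;> simp
    rw [e, ← e0, Pool.Agent.W186.DX.F_conj, h2, map_zero]

theorem step {p C : ℝ} (hp : 0 < p) (hcr : ∀ t : ℝ, 1 ≤ |t| →
    ‖riemannZeta (((1 / 2 : ℝ) : ℂ) + t * I)‖ ≤ C * |t| ^ (p / 2)) {y y1 : ℝ} (hpy : p ≤ y) (hyy : y < y1)
    (hy1 : y1 ≤ 1 / 2) (hct : CT y1) {n : ℕ} (a : Fin n → ℂ) (g : Fin n → ℝ) {γ : ℝ} (hγ : 0 < γ) (hγ1 : γ ≤ 1)
    (hg0 : ∀ j, γ ≤ g j) (hg1 : ∀ j, g j ≤ 2 * y) (hB : AFB a g y) :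
    ∃ c : ℝ, 0 < c ∧ c ≤ y1 - y ∧ AF 0 (y1 - c) := by
  obtain ⟨ω, hω⟩ : ∃ ω : ℝ, ω = min (γ / 2) (y1 - y) := ⟨_, rfl⟩
  have hω0 : 0 < ω := by rw [hω]; exact lt_min (by linarith) (by linarith)
  have hω1 : ω ≤ γ / 2 := by rw [hω]; exact min_le_left _ _
  have hω2 : ω ≤ y1 - y := by rw [hω]; exact min_le_right _ _
  obtain ⟨κ, T1, hκ0, hκ1, hT1, hsub⟩ := sub hp hcr (by linarith : p < y1) hy1 hct hω0 (by linarith)
  obtain ⟨c, hc⟩ : ∃ c : ℝ, c = min (κ / 4) ((y1 - y) / 2) := ⟨_, rfl⟩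
  have hc0 : 0 < c := by rw [hc]; exact lt_min (by linarith) (by linarith)
  have hc1 : c ≤ κ / 4 := by rw [hc]; exact min_le_left _ _
  have hc2 : c ≤ (y1 - y) / 2 := by rw [hc]; exact min_le_right _ _
  have hA := AA_nonneg a
  obtain ⟨T2, hT2, hz⟩ := zfB a g hγ hγ1 hg0 (fun j => (hg1 j).trans (by linarith)) (by linarith) (by linarith) hB c hc0
    (by linarith)
  obtain ⟨T3, hT3, hl⟩ := low_prof (by linarith) hct (γ / 2) 1 (by linarith) le_rfl
  obtain ⟨T4, hs⟩ := small_ev (AA a) (κ / 2) hA (by linarith)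
  refine ⟨c, hc0, by linarith, AF_of (T0 := max (max T1 T2) (max T3 T4)) fun T x hT hx0 hx1 h0 => ?_⟩
  have g1 : T1 ≤ T := ((le_max_left _ _).trans (le_max_left _ _)).trans hT
  have g2 : T2 ≤ T := ((le_max_right _ _).trans (le_max_left _ _)).trans hT
  have g3 : T3 ≤ T := ((le_max_left _ _).trans (le_max_right _ _)).trans hT
  have g4 : T4 ≤ T := ((le_max_right _ _).trans (le_max_right _ _)).trans hT
  have hTp : 0 < T := by linarith
  have hOp : 0 ≤ Om T := Om_nn (by linarith)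
  have him : 0 < (I * (T : ℂ)).im := by simpa using hTp
  have hHp : 0 < ‖HH (I * T)‖ := norm_pos_iff.2 (Pool.Agent.H24R2.JP.StirAux.HH_ne him)
  rcases le_or_gt (y1 + γ / 2) x with h1 | h1
  · have := hl T (x : ℂ) g3 (by simpa using h1) (by simp; linarith) (by simp)
    rw [h0, norm_zero] at this
    have : 0 < Real.exp (Om T * ((x : ℂ).re - γ / 2)) * ‖HH (I * T)‖ := by positivity
    linarith
  · have h2 := hz T x g2 (by linarith) (by linarith)
    have hM : ∀ j, ‖XX (I * T + x - g j)‖ ≤ Real.exp (Om T * (y1 - κ)) * ‖HH (I * T)‖ := by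
      intro j
      have e1 := hg0 j
      have e2 := hg1 j
      have e3 : I * (T : ℂ) + x - g j = I * T + ((x - g j : ℝ) : ℂ) := by push_cast; ring
      rw [e3]
      refine hsub T ((x - g j : ℝ) : ℂ) g1 ?_ (by simp)
      rw [Complex.ofReal_re, abs_le]
      constructor <;> linarith
    have h3 := sum_bd a g (I * T + x) _ hM
    unfold BB at h2
    rw [h0, zero_add] at h2
    have h4 := h2.trans h3
    have h5 : Real.exp (Om T * (y1 - κ / 2)) * ‖HH (I * T)‖ ≤ Real.exp (Om T * (x - c)) * ‖HH (I * T)‖ := by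
      have : Real.exp (Om T * (y1 - κ / 2)) ≤ Real.exp (Om T * (x - c)) :=
        Real.exp_le_exp.2 (mul_le_mul_of_nonneg_left (by linarith) hOp)
      gcongr
    have e5 : Real.exp (Om T * (y1 - κ)) = Real.exp (-(Om T * (κ / 2))) * Real.exp (Om T * (y1 - κ / 2)) := by
      rw [← Real.exp_add]; congr 1; ring
    have h6 := h5.trans h4
    rw [e5] at h6
    have h7 := hs T g4
    have hP : 0 < Real.exp (Om T * (y1 - κ / 2)) * ‖HH (I * T)‖ := by positivity
    have h8 : Real.exp (Om T * (y1 - κ / 2)) * ‖HH (I * T)‖ ≤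
        (AA a * Real.exp (-(Om T * (κ / 2)))) * (Real.exp (Om T * (y1 - κ / 2)) * ‖HH (I * T)‖) := by
      refine h6.trans (le_of_eq ?_)
      ring
    nlinarith

lemma AF_half : AF 0 (1 / 2) := by
  intro ε hε
  convert Set.finite_empty (α := ℂ)
  rw [Set.eq_empty_iff_forall_notMem]
  rintro z ⟨h1, h2⟩
  have := (abs_le.1 (F_half h2)).2
  linarith

lemma AF_mono {b b' : ℝ} (h : AF 0 b) (hb : b ≤ b') : AF 0 b' := fun ε hε =>
  (h ε hε).subset fun _ hz => ⟨by linarith [hz.1], hz.2⟩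

theorem bwd {p C : ℝ} (hp : 0 < p) (hcr : ∀ t : ℝ, 1 ≤ |t| →
    ‖riemannZeta (((1 / 2 : ℝ) : ℂ) + t * I)‖ ≤ C * |t| ^ (p / 2)) {y : ℝ} (hpy : p ≤ y)
    (hy1 : y ≤ 1 / 2) {n : ℕ} (a : Fin n → ℂ) (g : Fin n → ℝ)
    (hg0 : ∀ j, 0 < g j) (hg1 : ∀ j, g j ≤ 2 * y) (hB : AFB a g y) : AF 0 y := by
  obtain ⟨γ, hγ, hγ1, hγg⟩ : ∃ γ : ℝ, 0 < γ ∧ γ ≤ 1 ∧ ∀ j, γ ≤ g j := by
    rcases isEmpty_or_nonempty (Fin n) with he | he
    · exact ⟨1, one_pos, le_rfl, fun j => (he.false j).elim⟩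
    · obtain ⟨j0, hj0⟩ := Finite.exists_min g
      exact ⟨g j0, hg0 j0, (hg1 j0).trans (by linarith), hj0⟩
  obtain ⟨S, hS⟩ : ∃ S : Set ℝ, S = {w : ℝ | y ≤ w ∧ w ≤ 1 / 2 ∧ AF 0 w} := ⟨_, rfl⟩
  have hne : S.Nonempty := ⟨1 / 2, by rw [hS]; exact ⟨hy1, le_rfl, AF_half⟩⟩
  have hbd : BddBelow S := ⟨y, fun w hw => by rw [hS] at hw; exact hw.1⟩
  obtain ⟨w0, hw0⟩ : ∃ w0 : ℝ, w0 = sInf S := ⟨_, rfl⟩
  have hyw : y ≤ w0 := by
    rw [hw0]; exact le_csInf hne fun w hw => by rw [hS] at hw; exact hw.1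
  have hw1 : w0 ≤ 1 / 2 := by
    rw [hw0]; exact csInf_le hbd (by rw [hS]; exact ⟨hy1, le_rfl, AF_half⟩)
  have hAF : AF 0 w0 := by
    intro ε hε
    obtain ⟨w, hwS, hwlt⟩ := exists_lt_of_csInf_lt hne (show sInf S < w0 + ε / 2 by rw [← hw0]; linarith)
    rw [hS] at hwS
    refine (hwS.2.2 (ε / 2) (by linarith)).subset fun z hz => ⟨by linarith [hz.1], hz.2⟩
  rcases lt_or_eq_of_le hyw with h1 | h1
  · obtain ⟨c, hc0, hc1, hc⟩ := step hp hcr hpy h1 hw1 (ct_af (by linarith) hw1 hAF) a g hγ hγ1 hγg hg1 hB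
    have : w0 ≤ w0 - c := by
      conv_lhs => rw [hw0]
      exact csInf_le hbd (by rw [hS]; exact ⟨by linarith, by linarith, hc⟩)
    linarith
  · rw [h1]; exact hAF

end Pool.Agent.W186.SX
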