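import Pool.Agent.W186.SX.Mv

set_option autoImplicit false

/-!
# Far to the right
-/

namespace Pool.Agent.W186.SX

open Complex Filter Topology MeasureTheory Set
open Pool.Agent.H24R2.JP (XX HH Om)

lemma beta_le {u v : ℂ} (hu : 0 < u.re) (hv : 0 < v.re) :
    ‖Complex.betaIntegral u v‖ * Real.Gamma (u.re + v.re) ≤ Real.Gamma u.re * Real.Gamma v.re := by
  have h1 : ‖Complex.betaIntegral u v‖ ≤ ∫ x in (0 : ℝ)..1, x ^ (u.re - 1) * (1 - x) ^ (v.re - 1) := by
    unfold Complex.betaIntegral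
    refine (intervalIntegral.norm_integral_le_integral_norm zero_le_one).trans (le_of_eq ?_)
    apply intervalIntegral.integral_congr_ae
    rw [uIoc_of_le zero_le_one]
    have h2 : ∀ᵐ x : ℝ, x ≠ 1 := by
      have := (measure_singleton (μ := (volume : Measure ℝ)) (1 : ℝ))
      exact compl_mem_ae_iff.2 this
    filter_upwards [h2] with x hx1 hx
    have hx0 : 0 < x := hx.1
    have hx2 : 0 < 1 - x := by
      have := lt_of_le_of_ne hx.2 hx1
      linarith
    rw [norm_mul, Complex.norm_cpow_eq_rpow_re_of_pos hx0]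
    have e : (1 : ℂ) - (x : ℂ) = ((1 - x : ℝ) : ℂ) := by push_cast; ring
    rw [e, Complex.norm_cpow_eq_rpow_re_of_pos hx2]
    simp
  have h3 : Complex.betaIntegral (u.re : ℂ) (v.re : ℂ) =
      ((∫ x in (0 : ℝ)..1, x ^ (u.re - 1) * (1 - x) ^ (v.re - 1) : ℝ) : ℂ) := by
    unfold Complex.betaIntegral
    rw [← intervalIntegral.integral_ofReal]
    apply intervalIntegral.integral_congr
    intro x hx
    rw [uIcc_of_le zero_le_one] at hx
    simp only
    rw [Complex.ofReal_mul, Complex.ofReal_cpow hx.1, Complex.ofReal_cpow (by linarith [hx.2])]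
    push_cast
    ring
  have h4 := Complex.Gamma_mul_Gamma_eq_betaIntegral (s := (u.re : ℂ)) (t := (v.re : ℂ))
    (by simpa using hu) (by simpa using hv)
  rw [h3, Complex.Gamma_ofReal, Complex.Gamma_ofReal, ← Complex.ofReal_add, Complex.Gamma_ofReal] at h4
  have h5 : Real.Gamma u.re * Real.Gamma v.re =
      Real.Gamma (u.re + v.re) * ∫ x in (0 : ℝ)..1, x ^ (u.re - 1) * (1 - x) ^ (v.re - 1) := by
    exact_mod_cast h4
  rw [h5, mul_comm]
  exact mul_le_mul_of_nonneg_left h1 (Real.Gamma_pos_of_pos (by linarith)).le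

lemma gamma_ratio {w : ℂ} {a : ℝ} (ha : 0 < a) (hw : a < w.re) :
    ‖Complex.Gamma (w - a)‖ * Real.Gamma w.re ≤ ‖Complex.Gamma w‖ * Real.Gamma (w.re - a) := by
  have hre : (w - (a : ℂ)).re = w.re - a := by simp
  have h1 := Complex.Gamma_mul_Gamma_eq_betaIntegral (s := w - a) (t := (a : ℂ))
    (by rw [hre]; linarith) (by simpa using ha)
  rw [sub_add_cancel] at h1
  have h2 := congrArg norm h1
  rw [norm_mul, norm_mul, Complex.Gamma_ofReal, Complex.norm_real,
    Real.norm_of_nonneg (Real.Gamma_pos_of_pos ha).le] at h2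
  have h3 := beta_le (u := w - a) (v := (a : ℂ)) (by rw [hre]; linarith) (by simpa using ha)
  rw [hre, Complex.ofReal_re, sub_add_cancel] at h3
  have hG := Real.Gamma_pos_of_pos ha
  refine le_of_mul_le_mul_right ?_ hG
  calc ‖Complex.Gamma (w - a)‖ * Real.Gamma w.re * Real.Gamma a
      = (‖Complex.Gamma (w - a)‖ * Real.Gamma a) * Real.Gamma w.re := by ring
    _ = ‖Complex.Gamma w‖ * (‖Complex.betaIntegral (w - a) a‖ * Real.Gamma w.re) := by rw [h2]; ring
    _ ≤ ‖Complex.Gamma w‖ * (Real.Gamma (w.re - a) * Real.Gamma a) :=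
        mul_le_mul_of_nonneg_left h3 (norm_nonneg _)
    _ = _ := by ring

lemma gamma_real {x a : ℝ} (ha : 0 < a) (ha1 : a < 1) (hx : 1 < x) :
    Real.Gamma (x - a) ≤ Real.Gamma x * (x - 1) ^ (-a) := by
  have h1 := Real.Gamma_mul_add_mul_le_rpow_Gamma_mul_rpow_Gamma (s := x - 1) (t := x) (a := a) (b := 1 - a)
    (by linarith) (by linarith) ha (by linarith) (by ring)
  have e1 : a * (x - 1) + (1 - a) * x = x - a := by ring
  rw [e1] at h1
  have h2 : Real.Gamma x = (x - 1) * Real.Gamma (x - 1) := by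
    have := Real.Gamma_add_one (s := x - 1) (by linarith)
    rwa [sub_add_cancel] at this
  have hG1 := Real.Gamma_pos_of_pos (show 0 < x - 1 by linarith)
  have hG := Real.Gamma_pos_of_pos (show 0 < x by linarith)
  have hx1 : 0 < x - 1 := by linarith
  have h3 : Real.Gamma (x - 1) = Real.Gamma x * (x - 1)⁻¹ := by
    rw [h2]; field_simp
  refine h1.trans (le_of_eq ?_)
  rw [h3, Real.mul_rpow hG.le (by positivity), Real.inv_rpow hx1.le, ← Real.rpow_neg hx1.le]
  have h4 : Real.Gamma x ^ a * Real.Gamma x ^ (1 - a) = Real.Gamma x := by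
    rw [← Real.rpow_add hG]; simp
  calc Real.Gamma x ^ a * (x - 1) ^ (-a) * Real.Gamma x ^ (1 - a)
      = (Real.Gamma x ^ a * Real.Gamma x ^ (1 - a)) * (x - 1) ^ (-a) := by ring
    _ = _ := by rw [h4]

lemma zeta_ge2 (s : ℂ) (hs : 2 ≤ s.re) : ‖riemannZeta s‖ ≤ 2 := by
  rw [zeta_eq_tsum_one_div_nat_add_one_cpow (by linarith)]
  have hterm : ∀ n : ℕ, ‖1 / ((n : ℂ) + 1) ^ s‖ ≤ 1 / ((n : ℝ) + 1) ^ 2 := by
    intro n
    have h1 : ((n : ℂ) + 1) = (((n : ℝ) + 1 : ℝ) : ℂ) := by push_cast; ring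
    rw [norm_div, norm_one, h1, Complex.norm_cpow_eq_rpow_re_of_pos (by positivity)]
    apply one_div_le_one_div_of_le (by positivity)
    rw [← Real.rpow_natCast]
    apply Real.rpow_le_rpow_of_exponent_le
    · have : (0 : ℝ) ≤ n := Nat.cast_nonneg n
      linarith
    · push_cast; exact hs
  have hsum := hasSum_zeta_two
  have hs1 : HasSum (fun n : ℕ => 1 / ((n : ℝ) + 1) ^ 2) (Real.pi ^ 2 / 6) := by
    have := (hasSum_nat_add_iff' (f := fun n : ℕ => 1 / (n : ℝ) ^ 2) 1).2 hsum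
    simpa using this
  refine (tsum_of_norm_bounded hs1 hterm).trans ?_
  have := Real.pi_lt_d2
  have := Real.pi_pos
  nlinarith

lemma XX_right {z : ℂ} (hz : 1 / 2 < z.re) : XX z = HH z * riemannZeta (1 / 2 + z) := by
  have hre : (1 / 2 + z : ℂ).re = 1 / 2 + z.re := by simp
  have hs0 : (1 / 2 + z : ℂ) ≠ 0 := by
    intro h
    rw [h] at hre
    simp at hre
    linarith
  have hs1 : (1 - (1 / 2 + z) : ℂ) ≠ 0 := by
    intro h
    have h2 : (1 / 2 + z : ℂ) = 1 := by linear_combination -h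
    rw [h2] at hre
    simp at hre
    linarith
  have hG : Gammaℝ (1 / 2 + z) ≠ 0 := Complex.Gammaℝ_ne_zero_of_re_pos (by rw [hre]; linarith)
  unfold XX HH
  rw [riemannZeta_def_of_ne_zero hs0, completedRiemannZeta_eq]
  have e1 : ∀ (A G L : ℂ), G ≠ 0 → A * G * (L / G) = A * L := by
    intro A G L hG'
    field_simp
  rw [e1 _ _ _ hG]
  have e2 : (1 / (1 / 2 + z) + 1 / (1 - (1 / 2 + z)) : ℂ) * (4 * z ^ 2 - 1) = -4 := by
    generalize hs : (1 / 2 + z : ℂ) = s at *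
    have hz' : z = s - 1 / 2 := by rw [← hs]; ring
    rw [hz']
    field_simp
    ring
  linear_combination e2

/-- far to the right the first term dominates -/
lemma far (g c : ℝ) (hg : 0 < g) (hg1 : g ≤ 1) (hc : 0 < c) : ∃ R0 : ℝ, 3 ≤ R0 ∧ ∀ z : ℂ, R0 ≤ z.re →
    XX z ≠ 0 ∧ ‖XX (z - g)‖ ≤ c * ‖XX z‖ := by
  have hlim : Tendsto (fun x : ℝ => 4 * Real.pi ^ (g / 2) * (x - 1) ^ (-(g / 2))) atTop (𝓝 0) := by
    have h1 : Tendsto (fun x : ℝ => x - 1) atTop atTop := tendsto_atTop_add_const_right _ _ tendsto_id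
    have h2 := (tendsto_rpow_neg_atTop (show 0 < g / 2 by linarith)).comp h1
    have h3 := h2.const_mul (4 * Real.pi ^ (g / 2))
    rw [mul_zero] at h3
    exact h3
  obtain ⟨X0, hX0⟩ := Filter.eventually_atTop.1 (hlim.eventually (gt_mem_nhds hc))
  refine ⟨max 4 (2 * X0 + 1), (by norm_num : (3 : ℝ) ≤ 4).trans (le_max_left _ _), ?_⟩
  intro z hz
  have z1 : 4 ≤ z.re := (le_max_left _ _).trans hz
  have z2 : 2 * X0 + 1 ≤ z.re := (le_max_right _ _).trans hz
  have hzg : (z - (g : ℂ)).re = z.re - g := by simp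
  have hzgi : (z - (g : ℂ)).im = z.im := by simp
  have hX1 := XX_right (z := z) (by linarith)
  have hX2 := XX_right (z := z - g) (by rw [hzg]; linarith)
  obtain ⟨s, hs⟩ : ∃ s : ℂ, s = 1 / 2 + z := ⟨_, rfl⟩
  have hsre : s.re = 1 / 2 + z.re := by rw [hs]; simp
  have hsg : (1 / 2 + (z - (g : ℂ))) = s - g := by rw [hs]; ring
  have hsgre : (s - (g : ℂ)).re = s.re - g := by simp
  rw [← hs] at hX1
  rw [hsg] at hX2
  have hz1 := H353.zeta_lower s (by rw [hsre]; linarith)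
  have hz2 := zeta_ge2 (s - g) (by rw [hsgre, hsre]; linarith)
  -- the polynomial
  have hpoly : ‖4 * (z - (g : ℂ)) ^ 2 - 1‖ ≤ ‖4 * z ^ 2 - 1‖ := by
    have e1 : 4 * (z - (g : ℂ)) ^ 2 - 1 = (2 * (z - g) - 1) * (2 * (z - g) + 1) := by ring
    have e2 : 4 * z ^ 2 - 1 = (2 * z - 1) * (2 * z + 1) := by ring
    rw [e1, e2, norm_mul, norm_mul]
    have key : ∀ A B : ℂ, A.im = B.im → |A.re| ≤ |B.re| → ‖A‖ ≤ ‖B‖ := by
      intro A B h1 h2
      rw [← sq_le_sq₀ (norm_nonneg _) (norm_nonneg _), Complex.sq_norm, Complex.sq_norm,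
        Complex.normSq_apply, Complex.normSq_apply, h1]
      have := mul_self_le_mul_self (abs_nonneg _) h2
      rw [abs_mul_abs_self, abs_mul_abs_self] at this
      linarith
    apply mul_le_mul _ _ (norm_nonneg _) (norm_nonneg _)
    · apply key
      · simp
      · have h1 : (2 * (z - (g : ℂ)) - 1).re = 2 * (z.re - g) - 1 := by simp
        have h2 : (2 * z - 1).re = 2 * z.re - 1 := by simp
        rw [h1, h2, abs_of_nonneg (by linarith), abs_of_nonneg (by linarith)]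
        linarith
    · apply key
      · simp
      · have h1 : (2 * (z - (g : ℂ)) + 1).re = 2 * (z.re - g) + 1 := by simp
        have h2 : (2 * z + 1).re = 2 * z.re + 1 := by simp
        rw [h1, h2, abs_of_nonneg (by linarith), abs_of_nonneg (by linarith)]
        linarith
  -- the gamma factor
  have hw2 : (s / 2).re = s.re / 2 := by
    rw [Complex.div_re]; simp; ring
  have hGam : ‖Gammaℝ (s - g)‖ ≤ Real.pi ^ (g / 2) * (s.re / 2 - 1) ^ (-(g / 2)) * ‖Gammaℝ s‖ := by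
    rw [Complex.Gammaℝ_def, Complex.Gammaℝ_def, norm_mul, norm_mul,
      Complex.norm_cpow_eq_rpow_re_of_pos Real.pi_pos, Complex.norm_cpow_eq_rpow_re_of_pos Real.pi_pos]
    have e1 : (-(s - (g : ℂ)) / 2).re = g / 2 + -s.re / 2 := by
      rw [Complex.div_re]; simp; ring
    have e2 : (-s / 2).re = -s.re / 2 := by
      rw [Complex.div_re]; simp; ring
    have e3 : (s - (g : ℂ)) / 2 = s / 2 - ((g / 2 : ℝ) : ℂ) := by push_cast; ring
    rw [e1, e2, e3, Real.rpow_add Real.pi_pos]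
    have hr := gamma_ratio (w := s / 2) (a := g / 2) (by linarith) (by rw [hw2, hsre]; linarith)
    rw [hw2] at hr
    have hr2 := gamma_real (x := s.re / 2) (a := g / 2) (by linarith) (by linarith) (by rw [hsre]; linarith)
    have hGp := Real.Gamma_pos_of_pos (show 0 < s.re / 2 by rw [hsre]; linarith)
    have h3 : ‖Complex.Gamma (s / 2 - ((g / 2 : ℝ) : ℂ))‖ ≤ (s.re / 2 - 1) ^ (-(g / 2)) * ‖Complex.Gamma (s / 2)‖ := by
      refine le_of_mul_le_mul_right ?_ hGp
      calc _ ≤ ‖Complex.Gamma (s / 2)‖ * Real.Gamma (s.re / 2 - g / 2) := hr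
        _ ≤ ‖Complex.Gamma (s / 2)‖ * (Real.Gamma (s.re / 2) * (s.re / 2 - 1) ^ (-(g / 2))) :=
            mul_le_mul_of_nonneg_left hr2 (norm_nonneg _)
        _ = _ := by ring
    have hpi : 0 < Real.pi := Real.pi_pos
    calc Real.pi ^ (g / 2) * Real.pi ^ (-s.re / 2) * ‖Complex.Gamma (s / 2 - ((g / 2 : ℝ) : ℂ))‖
        ≤ Real.pi ^ (g / 2) * Real.pi ^ (-s.re / 2) *
          ((s.re / 2 - 1) ^ (-(g / 2)) * ‖Complex.Gamma (s / 2)‖) :=
          mul_le_mul_of_nonneg_left h3 (by positivity)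
      _ = _ := by ring
  have hsm := hX0 (s.re / 2) (by rw [hsre]; linarith)
  have hne1 : 4 * z ^ 2 - 1 ≠ 0 := by
    intro h
    have e2 : (2 * z - 1) * (2 * z + 1) = 0 := by linear_combination h
    rcases mul_eq_zero.1 e2 with h3 | h3
    · have := congrArg Complex.re h3
      simp at this
      linarith
    · have := congrArg Complex.re h3
      simp at this
      linarith
  have hne2 : Gammaℝ s ≠ 0 := Complex.Gammaℝ_ne_zero_of_re_pos (by rw [hsre]; linarith)
  have hHH1 : HH z = (4 * z ^ 2 - 1) * Gammaℝ s := by rw [hs]; rfl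
  have hHH2 : HH (z - g) = (4 * (z - g) ^ 2 - 1) * Gammaℝ (s - g) := by rw [← hsg]; rfl
  have hp1 : 0 < ‖4 * z ^ 2 - 1‖ := norm_pos_iff.2 hne1
  have hp2 : 0 < ‖Gammaℝ s‖ := norm_pos_iff.2 hne2
  refine ⟨?_, ?_⟩
  · rw [hX1, hHH1]
    refine mul_ne_zero (mul_ne_zero hne1 hne2) ?_
    rw [← norm_pos_iff]
    linarith
  · rw [hX1, hX2, hHH1, hHH2]
    simp only [norm_mul]
    obtain ⟨q, hq⟩ : ∃ q : ℝ, q = Real.pi ^ (g / 2) * (s.re / 2 - 1) ^ (-(g / 2)) := ⟨_, rfl⟩
    rw [← hq] at hGam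
    have hq4 : 4 * q < c := by rw [hq]; linarith
    have hq0 : 0 ≤ q := by
      rw [hq]
      have : 0 ≤ (s.re / 2 - 1) ^ (-(g / 2)) := Real.rpow_nonneg (by rw [hsre]; linarith) _
      positivity
    calc ‖4 * (z - (g : ℂ)) ^ 2 - 1‖ * ‖Gammaℝ (s - g)‖ * ‖riemannZeta (s - g)‖
        ≤ ‖4 * z ^ 2 - 1‖ * (q * ‖Gammaℝ s‖) * 2 := by
          apply mul_le_mul (mul_le_mul hpoly hGam (norm_nonneg _) hp1.le) hz2 (norm_nonneg _) (by positivity)
      _ = (4 * q) * (‖4 * z ^ 2 - 1‖ * ‖Gammaℝ s‖ * (1 / 2)) := by ring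
      _ ≤ c * (‖4 * z ^ 2 - 1‖ * ‖Gammaℝ s‖ * ‖riemannZeta s‖) := by
          apply mul_le_mul hq4.le _ (by positivity) hc.le
          exact mul_le_mul_of_nonneg_left hz1 (by positivity)

end Pool.Agent.W186.SX
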