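import Pool.Agent.W186.SX.On

set_option autoImplicit false

/-!
# Shifted sums of xi: the final form
-/

namespace Pool.Agent.W186.SX

open Complex Filter Topology Set
open Pool.Agent.H24R2.JP (XX HH Om)
open Pool.Agent.W186.HZ
open Pool.Agent.W186.DX (AF F_zero F F_half F_fin)
open Pool.Agent.H986R2.K4 (xi)

/-- a growth bound on the critical line -/
def Growth (μ : ℝ) : Prop := ∃ C : ℝ, ∀ t : ℝ, 1 ≤ |t| → ‖riemannZeta (1 / 2 + t * I)‖ ≤ C * |t| ^ μ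

/-- finitely many zeros to the right of `θ + ε` -/
def EdgeAt (f : ℂ → ℂ) (θ : ℝ) : Prop := ∀ ε : ℝ, 0 < ε → {s : ℂ | θ + ε < s.re ∧ f s = 0}.Finite

/-- the sum of shifts -/
noncomputable def comb {n : ℕ} (a : Fin n → ℂ) (g : Fin n → ℝ) (s : ℂ) : ℂ := xi s + ∑ j, a j * xi (s - g j)

/-- all but finitely many zeros on the line -/
def OnLine (c : ℂ) (h : ℝ) : Prop := {s : ℂ | s.re ≠ 1 / 2 ∧ xi (s + h) + c * xi (s - h) = 0}.Finite

lemma xi_XX (s : ℂ) : xi s = 1 / 8 * XX (s - 1 / 2) := by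
  have := Pool.Agent.H986R2.K4.XiAux.iter 0 s
  rwa [iteratedDeriv_zero, iteratedDeriv_zero] at this

lemma comb_BB {n : ℕ} (a : Fin n → ℂ) (g : Fin n → ℝ) (s : ℂ) : comb a g s = 1 / 8 * BB a g (s - 1 / 2) := by
  unfold comb BB
  rw [mul_add, Finset.mul_sum, xi_XX]
  congr 1
  refine Finset.sum_congr rfl fun j _ => ?_
  rw [xi_XX]
  have e : s - (g j : ℂ) - 1 / 2 = s - 1 / 2 - g j := by ring
  rw [e]
  ring

lemma comb_zero {n : ℕ} (a : Fin n → ℂ) (g : Fin n → ℝ) (s : ℂ) : comb a g s = 0 ↔ BB a g (s - 1 / 2) = 0 := by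
  rw [comb_BB]
  simp

lemma fin_comb {n : ℕ} (a : Fin n → ℂ) (g : Fin n → ℝ) (b : ℝ) :
    {s : ℂ | 1 / 2 + b < s.re ∧ comb a g s = 0}.Finite ↔ {z : ℂ | b < z.re ∧ BB a g z = 0}.Finite := by
  constructor
  · intro h
    refine (h.image fun s => s - 1 / 2).subset ?_
    rintro z ⟨z1, z2⟩
    refine ⟨z + 1 / 2, ⟨?_, ?_⟩, by ring⟩
    · simp
      linarith
    · rw [comb_zero]
      have : z + 1 / 2 - 1 / 2 = z := by ring
      rw [this]
      exact z2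
  · intro h
    refine (h.image fun z => z + 1 / 2).subset ?_
    rintro s ⟨s1, s2⟩
    refine ⟨s - 1 / 2, ⟨?_, (comb_zero a g s).1 s2⟩, by ring⟩
    rw [Pool.Agent.H986R2.K4.XiAux.half_re]
    linarith

lemma edge_comb {n : ℕ} (a : Fin n → ℂ) (g : Fin n → ℝ) (y : ℝ) : EdgeAt (comb a g) (1 / 2 + y) ↔ AFB a g y := by
  unfold EdgeAt AFB
  refine forall_congr' fun ε => forall_congr' fun _ => ?_
  rw [← fin_comb a g (y + ε), ← add_assoc]

lemma edge_zeta {y : ℝ} (hy : 0 ≤ y) : EdgeAt riemannZeta (1 / 2 + y) ↔ AF 0 y := (af_iff hy).symm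

lemma online_iff (c : ℂ) (h : ℝ) : OnLine c h ↔ OnL c h := by
  have key : ∀ s : ℂ, xi (s + h) + c * xi (s - h) = 0 ↔ XX (s - 1 / 2 + h) + c * XX (s - 1 / 2 - h) = 0 := by
    intro s
    rw [xi_XX, xi_XX]
    have e1 : s + (h : ℂ) - 1 / 2 = s - 1 / 2 + h := by ring
    have e2 : s - (h : ℂ) - 1 / 2 = s - 1 / 2 - h := by ring
    rw [e1, e2]
    have e3 : (1 : ℂ) / 8 * XX (s - 1 / 2 + h) + c * (1 / 8 * XX (s - 1 / 2 - h)) =
      1 / 8 * (XX (s - 1 / 2 + h) + c * XX (s - 1 / 2 - h)) := by ring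
    rw [e3]
    simp
  constructor
  · intro ho
    have ho' : {s : ℂ | s.re ≠ 1 / 2 ∧ xi (s + h) + c * xi (s - h) = 0}.Finite := ho
    refine (ho'.image fun s => s - 1 / 2).subset ?_
    rintro z ⟨z1, z2⟩
    refine ⟨z + 1 / 2, ⟨?_, ?_⟩, by ring⟩
    · intro h1
      apply z1
      simp at h1
      exact h1
    · rw [key]
      have : z + 1 / 2 - 1 / 2 = z := by ring
      rw [this]
      exact z2
  · intro ho
    have ho' : {z : ℂ | z.re ≠ 0 ∧ XX (z + h) + c * XX (z - h) = 0}.Finite := ho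
    refine (ho'.image fun z => z + 1 / 2).subset ?_
    rintro s ⟨s1, s2⟩
    refine ⟨s - 1 / 2, ⟨?_, (key s).1 s2⟩, by ring⟩
    rw [Pool.Agent.H986R2.K4.XiAux.half_re]
    intro h1
    apply s1
    linarith

lemma q1_af : (∃ θ : ℝ, θ < 1 ∧ ∀ s : ℂ, θ < s.re → riemannZeta s ≠ 0) ↔ ∃ y : ℝ, 0 ≤ y ∧ y < 1 / 2 ∧ AF 0 y := by
  constructor
  · rintro ⟨θ, h1, h2⟩
    refine ⟨max (θ - 1 / 2) 0, le_max_right _ _, max_lt (by linarith) (by norm_num), ?_⟩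
    rw [← edge_zeta (le_max_right _ _)]
    intro ε hε
    convert Set.finite_empty (α := ℂ)
    rw [Set.eq_empty_iff_forall_notMem]
    rintro s ⟨s1, s2⟩
    exact h2 s (by have := le_max_left (θ - 1 / 2) 0; linarith) s2
  · rintro ⟨y, hy0, hy1, h⟩
    rw [Pool.Agent.W186.DX.q1 0]
    obtain ⟨ε, hε⟩ : ∃ ε : ℝ, ε = (1 / 2 - y) / 2 := ⟨_, rfl⟩
    refine ⟨1 / 2 + y + ε, by linarith, ?_⟩
    refine ((h ε (by linarith)).image fun z => z + 1 / 2).subset ?_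
    rintro s ⟨s1, s2⟩
    refine ⟨s - 1 / 2, ⟨?_, (Pool.Agent.W186.DX.F_xi 0 s).1 s2⟩, by ring⟩
    rw [Pool.Agent.H986R2.K4.XiAux.half_re]
    linarith

lemma growth_crit : ∃ μ : ℝ, 0 < μ ∧ μ < 1 / 4 ∧ Growth μ := by
  obtain ⟨p, C, hp0, hp1, h⟩ := crit
  refine ⟨p / 2, by linarith, by linarith, C, fun t ht => ?_⟩
  have e : (1 / 2 : ℂ) + t * I = ((1 / 2 : ℝ) : ℂ) + t * I := by push_cast; ring
  rw [e]
  exact h t ht

lemma growth_use {μ : ℝ} (h : Growth μ) : ∃ C : ℝ, ∀ t : ℝ, 1 ≤ |t| →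
    ‖riemannZeta (((1 / 2 : ℝ) : ℂ) + t * I)‖ ≤ C * |t| ^ ((2 * μ) / 2) := by
  obtain ⟨C, hC⟩ := h
  refine ⟨C, fun t ht => ?_⟩
  have e : (1 / 2 : ℂ) + t * I = ((1 / 2 : ℝ) : ℂ) + t * I := by push_cast; ring
  have e2 : 2 * μ / 2 = μ := by ring
  rw [← e, e2]
  exact hC t ht

lemma AFB_mono {n : ℕ} {a : Fin n → ℂ} {g : Fin n → ℝ} {b b' : ℝ} (h : AFB a g b) (hb : b ≤ b') :
    AFB a g b' := fun ε hε =>
  (h ε hε).subset fun _ hz => ⟨by linarith [hz.1], hz.2⟩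

lemma gmax_ex {n : ℕ} (g : Fin n → ℝ) (hg : ∀ j, g j < 1) : ∃ m : ℝ, m < 1 ∧ ∀ j, g j ≤ m := by
  rcases isEmpty_or_nonempty (Fin n) with he | he
  · exact ⟨0, one_pos, fun j => (he.false j).elim⟩
  · obtain ⟨j0, hj0⟩ := Finite.exists_max g
    exact ⟨g j0, hg j0, hj0⟩

theorem main :
    (∃ μ : ℝ, 0 < μ ∧ μ < 1 / 4 ∧ Growth μ) ∧
    (∀ μ : ℝ, 0 < μ → Growth μ →
      (∀ θ : ℝ, 1 / 2 + 2 * μ ≤ θ → θ ≤ 1 → ∀ (n : ℕ) (a : Fin n → ℂ) (g : Fin n → ℝ),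
        (∀ j, 0 < g j ∧ g j ≤ 2 * θ - 1) → (EdgeAt riemannZeta θ ↔ EdgeAt (comb a g) θ)) ∧
      (∀ θ : ℝ, 1 / 2 + 2 * μ ≤ θ → θ < 1 →
        ∀ c : ℂ, ‖c‖ = 1 →
          (EdgeAt riemannZeta θ ↔ ∀ h : ℝ, θ - 1 / 2 < h → h ≤ 1 / 2 → OnLine c h))) ∧
    (∀ (n : ℕ) (a : Fin n → ℂ) (g : Fin n → ℝ), (∀ j, 0 < g j ∧ g j < 1) →
      ((∃ θ : ℝ, θ < 1 ∧ ∀ s : ℂ, θ < s.re → riemannZeta s ≠ 0) ↔
        ∃ θ : ℝ, θ < 1 ∧ {s : ℂ | θ < s.re ∧ comb a g s = 0}.Finite)) ∧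
    (∀ c : ℂ, ‖c‖ = 1 → ((∃ θ : ℝ, θ < 1 ∧ ∀ s : ℂ, θ < s.re → riemannZeta s ≠ 0) ↔
      ∃ h : ℝ, 0 < h ∧ h < 1 / 2 ∧ OnLine c h)) := by
  refine ⟨growth_crit, fun μ hμ hG => ⟨fun θ hθ0 hθ1 n a g hg => ?_, fun θ hθ0 hθ1 c hc => ?_⟩,
    fun n a g hg => ?_, fun c hc => ?_⟩
  · obtain ⟨C, hC⟩ := growth_use hG
    have e : θ = 1 / 2 + (θ - 1 / 2) := by ring
    rw [e, edge_zeta (by linarith), edge_comb]
    constructor
    · intro h
      exact fwd (by linarith) (by linarith) h a g (fun j => (hg j).1) fun j => by have := (hg j).2; linarith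
    · intro h
      exact bwd (by linarith : 0 < 2 * μ) hC (by linarith) (by linarith) a g (fun j => (hg j).1)
        (fun j => by have := (hg j).2; linarith) h
  · obtain ⟨C, hC⟩ := growth_use hG
    have e : θ = 1 / 2 + (θ - 1 / 2) := by ring
    constructor
    · intro h h1 hh1 hh2
      rw [e, edge_zeta (by linarith)] at h
      rw [online_iff]
      exact onl_of c hc (by linarith) hh1 hh2 (ct_af (by linarith) (by linarith) h)
    · intro h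
      rw [e, edge_zeta (by linarith)]
      intro ε hε
      obtain ⟨h1, hh1⟩ : ∃ h1 : ℝ, h1 = min (θ - 1 / 2 + ε / 2) (1 / 2) := ⟨_, rfl⟩
      have a1 : θ - 1 / 2 < h1 := by rw [hh1]; exact lt_min (by linarith) (by linarith)
      have a2 : h1 ≤ 1 / 2 := by rw [hh1]; exact min_le_right _ _
      have a3 : h1 ≤ θ - 1 / 2 + ε / 2 := by rw [hh1]; exact min_le_left _ _
      have h2 := bwd (by linarith : 0 < 2 * μ) hC (by linarith) a2 _ _ (fun _ => by linarith)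
        (fun _ => le_rfl) (afb_of_onl ((online_iff c h1).1 (h h1 a1 a2)))
      exact (h2 (ε / 2) (by linarith)).subset fun z hz => ⟨by linarith [hz.1], hz.2⟩
  · obtain ⟨μ, hμ0, hμ1, hG⟩ := growth_crit
    obtain ⟨C, hC⟩ := growth_use hG
    obtain ⟨m, hm1, hm⟩ := gmax_ex g fun j => (hg j).2
    rw [q1_af]
    constructor
    · rintro ⟨y, hy0, hy1, h⟩
      obtain ⟨y', hy'⟩ : ∃ y' : ℝ, y' = max y (m / 2) := ⟨_, rfl⟩
      have b1 : y ≤ y' := by rw [hy']; exact le_max_left _ _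
      have b2 : m / 2 ≤ y' := by rw [hy']; exact le_max_right _ _
      have b3 : y' < 1 / 2 := by rw [hy']; exact max_lt hy1 (by linarith)
      have h2 := fwd (by linarith) b3.le (AF_mono h b1) a g (fun j => (hg j).1) fun j => by
        have := hm j; linarith
      obtain ⟨ε, hε⟩ : ∃ ε : ℝ, ε = (1 / 2 - y') / 2 := ⟨_, rfl⟩
      refine ⟨1 / 2 + (y' + ε), by linarith, ?_⟩
      rw [fin_comb]
      exact h2 ε (by linarith)
    · rintro ⟨θ, hθ1, h⟩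
      obtain ⟨y, hy⟩ : ∃ y : ℝ, y = max (max (θ - 1 / 2) (m / 2)) (2 * μ) := ⟨_, rfl⟩
      have b1 : θ - 1 / 2 ≤ y := by rw [hy]; exact (le_max_left _ _).trans (le_max_left _ _)
      have b2 : m / 2 ≤ y := by rw [hy]; exact (le_max_right _ _).trans (le_max_left _ _)
      have b3 : 2 * μ ≤ y := by rw [hy]; exact le_max_right _ _
      have b4 : y < 1 / 2 := by rw [hy]; exact max_lt (max_lt (by linarith) (by linarith)) (by linarith)
      have e : θ = 1 / 2 + (θ - 1 / 2) := by ring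
      rw [e, fin_comb] at h
      have h2 : AFB a g y := fun ε hε => h.subset fun z hz => ⟨by linarith [hz.1], hz.2⟩
      exact ⟨y, by linarith, b4, bwd (by linarith : 0 < 2 * μ) hC b3 b4.le a g (fun j => (hg j).1)
        (fun j => by have := hm j; linarith) h2⟩
  · obtain ⟨μ, hμ0, hμ1, hG⟩ := growth_crit
    obtain ⟨C, hC⟩ := growth_use hG
    rw [q1_af]
    constructor
    · rintro ⟨y, hy0, hy1, h⟩
      refine ⟨(y + 1 / 2) / 2, by linarith, by linarith, ?_⟩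
      rw [online_iff]
      exact onl_of c hc hy0 (by linarith) (by linarith) (ct_af hy0 hy1.le h)
    · rintro ⟨h, h0, h1, ho⟩
      obtain ⟨y, hy⟩ : ∃ y : ℝ, y = max h (2 * μ) := ⟨_, rfl⟩
      have b1 : h ≤ y := by rw [hy]; exact le_max_left _ _
      have b3 : 2 * μ ≤ y := by rw [hy]; exact le_max_right _ _
      have b4 : y < 1 / 2 := by rw [hy]; exact max_lt (by linarith) (by linarith)
      exact ⟨y, by linarith, b4, bwd (by linarith : 0 < 2 * μ) hC b3 b4.le _ _ (fun _ => by linarith)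
        (fun _ => by linarith) (AFB_mono (afb_of_onl ((online_iff c h).1 ho)) b1)⟩

end Pool.Agent.W186.SX
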