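import Pool.Agent.W186.SX.FR

set_option autoImplicit false

/-!
# Shifted sums: the forward direction
-/

namespace Pool.Agent.W186.SX

open Complex Filter Topology MeasureTheory Set
open Pool.Agent.H24R2.JP (XX HH Om)
open Pool.Agent.W186.HZ
open Pool.Agent.W186.DX (AF F_zero F F_half F_fin)

/-- the sum -/
noncomputable def BB {n : ℕ} (a : Fin n → ℂ) (g : Fin n → ℝ) (z : ℂ) : ℂ := XX z + ∑ j, a j * XX (z - g j)

/-- only finitely many zeros to the right of `y + ε` -/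
def AFB {n : ℕ} (a : Fin n → ℂ) (g : Fin n → ℝ) (y : ℝ) : Prop :=
  ∀ ε : ℝ, 0 < ε → {z : ℂ | y + ε < z.re ∧ BB a g z = 0}.Finite

lemma BB_diff {n : ℕ} (a : Fin n → ℂ) (g : Fin n → ℝ) : Differentiable ℂ (BB a g) := by
  have h1 : Differentiable ℂ XX := Pool.Agent.H24R2.JP.B1h.XX_diff
  have h2 : ∀ j : Fin n, Differentiable ℂ fun z : ℂ => a j * XX (z - g j) := fun j =>
    (h1.comp (differentiable_id.sub_const _)).const_mul _
  unfold BB
  exact h1.add (Differentiable.fun_sum fun j _ => h2 j)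

lemma BB_conj {n : ℕ} (a : Fin n → ℂ) (g : Fin n → ℝ) (z : ℂ) :
    BB a g ((starRingEnd ℂ) z) = (starRingEnd ℂ) (BB (fun j => (starRingEnd ℂ) (a j)) g z) := by
  unfold BB
  rw [map_add, map_sum, Pool.Agent.W186.DX.XX_conj]
  congr 1
  refine Finset.sum_congr rfl fun j _ => ?_
  rw [map_mul, Complex.conj_conj]
  congr 1
  have e : (starRingEnd ℂ) z - (g j : ℂ) = (starRingEnd ℂ) (z - g j) := by
    rw [map_sub, Complex.conj_ofReal]
  rw [e, Pool.Agent.W186.DX.XX_conj]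

/-- the sum of the moduli of the coefficients -/
noncomputable def AA {n : ℕ} (a : Fin n → ℂ) : ℝ := ∑ j, ‖a j‖

lemma AA_nonneg {n : ℕ} (a : Fin n → ℂ) : 0 ≤ AA a := Finset.sum_nonneg fun _ _ => norm_nonneg _

lemma sum_bd {n : ℕ} (a : Fin n → ℂ) (g : Fin n → ℝ) (z : ℂ) (M : ℝ) (hM : ∀ j, ‖XX (z - g j)‖ ≤ M) :
    ‖∑ j, a j * XX (z - g j)‖ ≤ AA a * M := by
  refine (norm_sum_le _ _).trans ?_
  unfold AA
  rw [Finset.sum_mul]
  refine Finset.sum_le_sum fun j _ => ?_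
  rw [norm_mul]
  exact mul_le_mul_of_nonneg_left (hM j) (norm_nonneg _)

lemma BB_far {n : ℕ} (a : Fin n → ℂ) (g : Fin n → ℝ) (hg0 : ∀ j, 0 < g j) (hg1 : ∀ j, g j ≤ 1) :
    ∃ R0 : ℝ, 3 ≤ R0 ∧ ∀ z : ℂ, R0 ≤ z.re → BB a g z ≠ 0 := by
  obtain ⟨c, hc⟩ : ∃ c : ℝ, c = 1 / (2 * (AA a + 1)) := ⟨_, rfl⟩
  have hA := AA_nonneg a
  have hc0 : 0 < c := by rw [hc]; positivity
  choose R hR3 hR using fun j => far (g j) c (hg0 j) (hg1 j) hc0
  refine ⟨4 + ∑ j, |R j|, by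
    have : 0 ≤ ∑ j, |R j| := Finset.sum_nonneg fun _ _ => abs_nonneg _
    linarith, fun z hz h0 => ?_⟩
  have hj : ∀ j, R j ≤ z.re := by
    intro j
    have h1 : |R j| ≤ ∑ j, |R j| :=
      Finset.single_le_sum (f := fun j => |R j|) (fun _ _ => abs_nonneg _) (Finset.mem_univ j)
    have := le_abs_self (R j)
    linarith
  have hzre : 4 ≤ z.re := by
    have : 0 ≤ ∑ j, |R j| := Finset.sum_nonneg fun _ _ => abs_nonneg _
    linarith
  have hXX : XX z ≠ 0 := by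
    intro h
    have h2 : F 0 z = 0 := by rw [F_zero]; exact h
    have := (abs_le.1 (F_half h2)).2
    linarith
  have h1 := sum_bd a g z (c * ‖XX z‖) fun j => (hR j z (hj j)).2
  unfold BB at h0
  have h2 : XX z = -∑ j, a j * XX (z - g j) := by linear_combination h0
  have h3 : ‖XX z‖ ≤ AA a * (c * ‖XX z‖) := by
    have h3' : ‖XX z‖ = ‖∑ j, a j * XX (z - g j)‖ := by
      conv_lhs => rw [h2]
      exact norm_neg _
    rw [h3']
    rw [h3'] at h1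
    exact h1
  have hp : 0 < ‖XX z‖ := norm_pos_iff.2 hXX
  have h4 : AA a * c ≤ 1 / 2 := by
    rw [hc, mul_one_div, div_le_div_iff₀ (by positivity) (by norm_num)]
    linarith
  nlinarith

lemma small_ev (A κ : ℝ) (hA : 0 ≤ A) (hκ : 0 < κ) : ∃ T0 : ℝ, ∀ T : ℝ, T0 ≤ T → A * Real.exp (-(Om T * κ)) ≤ 1 / 2 := by
  obtain ⟨T4, hT4, hO⟩ := Om_large (2 * A / κ)
  refine ⟨T4, fun T hT => ?_⟩
  have h1 := hO T hT
  rw [div_le_iff₀ hκ] at h1
  rcases eq_or_lt_of_le hA with h2 | h2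
  · rw [← h2]; norm_num
  · rw [Real.exp_neg, ← div_eq_mul_inv, div_le_div_iff₀ (Real.exp_pos _) (by norm_num)]
    have := Real.add_one_le_exp (Om T * κ)
    linarith

lemma fwd_high {y : ℝ} (hy0 : 0 ≤ y) (hy1 : y ≤ 1 / 2) (h : CT y) {n : ℕ} (a : Fin n → ℂ) (g : Fin n → ℝ)
    {γ : ℝ} (hγ : 0 < γ) (hγ1 : γ ≤ 1) (hg0 : ∀ j, γ ≤ g j) (hg1 : ∀ j, g j ≤ 2 * y) (ε R : ℝ) (hε : 0 < ε)
    (hε1 : ε ≤ 1) (hR : 1 ≤ R) :
    ∃ T0 : ℝ, 400 ≤ T0 ∧ ∀ z : ℂ, y + ε ≤ z.re → z.re ≤ R → T0 ≤ z.im → BB a g z ≠ 0 := by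
  obtain ⟨κ, hκ⟩ : ∃ κ : ℝ, κ = min γ ε := ⟨_, rfl⟩
  have hκ0 : 0 < κ := by rw [hκ]; exact lt_min hγ hε
  have hκ1 : κ ≤ γ := by rw [hκ]; exact min_le_left _ _
  have hκ2 : κ ≤ ε := by rw [hκ]; exact min_le_right _ _
  obtain ⟨T1, hT1, hu⟩ := up_prof hy0 hy1 h (κ / 4) R (by linarith) hR
  obtain ⟨T2, hT2, hl⟩ := low_prof hy0 h (κ / 4) R (by linarith) hR
  obtain ⟨T3, hs⟩ := small_ev (AA a) (κ / 2) (AA_nonneg a) (by linarith)
  refine ⟨max (max T1 T2) T3, by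
    have := (le_max_left T1 T2).trans (le_max_left (max T1 T2) T3)
    linarith, fun z hz0 hz1 hz2 h0 => ?_⟩
  have g1 : T1 ≤ z.im := ((le_max_left _ _).trans (le_max_left _ _)).trans hz2
  have g2 : T2 ≤ z.im := ((le_max_right _ _).trans (le_max_left _ _)).trans hz2
  have g3 : T3 ≤ z.im := (le_max_right _ _).trans hz2
  obtain ⟨T, hT⟩ : ∃ T : ℝ, T = z.im := ⟨_, rfl⟩
  obtain ⟨x, hx⟩ : ∃ x : ℝ, x = z.re := ⟨_, rfl⟩
  have hzz : z = I * T + (x : ℂ) := by rw [hT, hx]; apply Complex.ext <;> simp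
  rw [← hT] at g1 g2 g3
  rw [← hx] at hz0 hz1
  have hTp : 0 < T := by linarith
  have him : 0 < (I * (T : ℂ)).im := by simpa using hTp
  have hHp : 0 < ‖HH (I * T)‖ := norm_pos_iff.2 (Pool.Agent.H24R2.JP.StirAux.HH_ne him)
  have hOp : 0 ≤ Om T := by
    unfold Om
    have := Real.log_nonneg (show (1 : ℝ) ≤ T by linarith)
    linarith
  have hlow := hl T (x : ℂ) g2 (by simpa using (by linarith : y + κ / 4 ≤ x)) (by simpa using hz1) (by simp)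
  rw [Complex.ofReal_re] at hlow
  have hM : ∀ j, ‖XX (z - g j)‖ ≤ Real.exp (Om T * (x - 3 * κ / 4)) * ‖HH (I * T)‖ := by
    intro j
    have e : z - (g j : ℂ) = I * T + ((x - g j : ℝ) : ℂ) := by rw [hzz]; push_cast; ring
    have h1 := hg0 j
    have h2 := hg1 j
    rw [e]
    have hab : |x - g j| ≤ x - κ := by rw [abs_le]; constructor <;> linarith
    refine (hu T ((x - g j : ℝ) : ℂ) g1 (by rw [Complex.ofReal_re]; linarith) (by simp)).trans ?_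
    rw [Complex.ofReal_re]
    apply mul_le_mul_of_nonneg_right _ hHp.le
    apply Real.exp_le_exp.2
    apply mul_le_mul_of_nonneg_left _ hOp
    have : max |x - g j| y ≤ x - κ := max_le hab (by linarith)
    linarith
  have h1 := sum_bd a g z _ hM
  unfold BB at h0
  have h2 : XX z = -∑ j, a j * XX (z - g j) := by linear_combination h0
  have h3 : ‖XX z‖ ≤ AA a * (Real.exp (Om T * (x - 3 * κ / 4)) * ‖HH (I * T)‖) := by
    rw [h2, norm_neg]; exact h1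
  rw [hzz] at h3
  have h4 := hlow.trans h3
  have e5 : Real.exp (Om T * (x - 3 * κ / 4)) = Real.exp (-(Om T * (κ / 2))) * Real.exp (Om T * (x - κ / 4)) := by
    rw [← Real.exp_add]; congr 1; ring
  rw [e5] at h4
  have h5 := hs T g3
  have hP : 0 < Real.exp (Om T * (x - κ / 4)) * ‖HH (I * T)‖ := by positivity
  have h6 : Real.exp (Om T * (x - κ / 4)) * ‖HH (I * T)‖ ≤
      (AA a * Real.exp (-(Om T * (κ / 2)))) * (Real.exp (Om T * (x - κ / 4)) * ‖HH (I * T)‖) := by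
    refine h4.trans (le_of_eq ?_)
    ring
  nlinarith

lemma fin_of_high {n : ℕ} (a : Fin n → ℂ) (g : Fin n → ℝ) (hg0 : ∀ j, 0 < g j) (hg1 : ∀ j, g j ≤ 1) (b : ℝ)
    (h : ∀ R : ℝ, 1 ≤ R → ∃ T0 : ℝ, ∀ z : ℂ, b ≤ z.re → z.re ≤ R → T0 ≤ z.im → BB a g z ≠ 0)
    (h' : ∀ R : ℝ, 1 ≤ R → ∃ T0 : ℝ, ∀ z : ℂ, b ≤ z.re → z.re ≤ R → T0 ≤ z.im →
      BB (fun j => (starRingEnd ℂ) (a j)) g z ≠ 0) : {z : ℂ | b < z.re ∧ BB a g z = 0}.Finite := by
  obtain ⟨R0, hR0, hfar⟩ := BB_far a g hg0 hg1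
  obtain ⟨T1, h1⟩ := h R0 (by linarith)
  obtain ⟨T2, h2⟩ := h' R0 (by linarith)
  have hne : ∃ u, BB a g u ≠ 0 := ⟨(R0 : ℂ), hfar _ (by simp)⟩
  have hK : IsCompact (Icc b R0 ×ℂ Icc (-T2) T1) := IsCompact.reProdIm isCompact_Icc isCompact_Icc
  refine (Pool.Agent.W186.LH.zfin (BB_diff a g) hne hK).subset ?_
  rintro z ⟨z1, z2⟩
  refine ⟨⟨⟨z1.le, ?_⟩, ?_, ?_⟩, z2⟩
  · by_contra hc
    push Not at hc
    exact hfar z hc.le z2
  · show -T2 ≤ z.im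
    by_contra hc
    push Not at hc
    have hzr : z.re ≤ R0 := by
      by_contra hc2
      push Not at hc2
      exact hfar z hc2.le z2
    refine h2 ((starRingEnd ℂ) z) (by simpa using z1.le) (by simpa using hzr) (by simp; linarith) ?_
    have := BB_conj a g ((starRingEnd ℂ) z)
    rw [Complex.conj_conj, z2] at this
    have h5 := congrArg (starRingEnd ℂ) this
    rw [Complex.conj_conj, map_zero] at h5
    exact h5.symm
  · show z.im ≤ T1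
    by_contra hc
    push Not at hc
    have hzr : z.re ≤ R0 := by
      by_contra hc2
      push Not at hc2
      exact hfar z hc2.le z2
    exact h1 z z1.le hzr hc.le z2

lemma ct_af {y : ℝ} (hy0 : 0 ≤ y) (hy1 : y ≤ 1 / 2) (h : AF 0 y) : CT y := by
  rcases lt_or_eq_of_le hy1 with h1 | h1
  · exact ct_of_AF hy0 h1 h
  · rw [h1]; exact ct_half

theorem fwd {y : ℝ} (hy0 : 0 ≤ y) (hy1 : y ≤ 1 / 2) (h : AF 0 y) {n : ℕ} (a : Fin n → ℂ) (g : Fin n → ℝ)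
    (hg0 : ∀ j, 0 < g j) (hg1 : ∀ j, g j ≤ 2 * y) : AFB a g y := by
  have hct := ct_af hy0 hy1 h
  obtain ⟨γ, hγ, hγ1, hγg⟩ : ∃ γ : ℝ, 0 < γ ∧ γ ≤ 1 ∧ ∀ j, γ ≤ g j := by
    rcases isEmpty_or_nonempty (Fin n) with he | he
    · exact ⟨1, one_pos, le_rfl, fun j => (he.false j).elim⟩
    · obtain ⟨j0, hj0⟩ := Finite.exists_min g
      exact ⟨g j0, hg0 j0, (hg1 j0).trans (by linarith), hj0⟩
  intro ε hε
  refine fin_of_high a g hg0 (fun j => (hg1 j).trans (by linarith)) (y + ε) (fun R hR => ?_) (fun R hR => ?_)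
  · obtain ⟨T0, -, h2⟩ := fwd_high hy0 hy1 hct a g hγ hγ1 hγg hg1 (min ε 1) R (lt_min hε one_pos)
      (min_le_right _ _) hR
    exact ⟨T0, fun z z1 z2 z3 => h2 z (by linarith [min_le_left ε 1]) z2 z3⟩
  · obtain ⟨T0, -, h2⟩ := fwd_high hy0 hy1 hct (fun j => (starRingEnd ℂ) (a j)) g hγ hγ1 hγg hg1 (min ε 1) R
      (lt_min hε one_pos) (min_le_right _ _) hR
    exact ⟨T0, fun z z1 z2 z3 => h2 z (by linarith [min_le_left ε 1]) z2 z3⟩

end Pool.Agent.W186.SX
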