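import Pool.Agent.W186.LH.Ex

set_option autoImplicit false

/-!
# Interpolation of exponents of zeta
-/

namespace Pool.Agent.W186.SX

open Complex Filter Topology MeasureTheory Set
open Pool.Agent.W186.LH (Ex)

lemma gmax {μ : ℝ} (hμ : 0 ≤ μ) (t T : ℝ) :
    (1 + |t|) ^ μ * Real.exp (-(t - T) ^ 2) ≤ Real.exp (μ ^ 2 / 4) * (1 + |T|) ^ μ := by
  have h1 : 1 + |t| ≤ (1 + |T|) * (1 + |t - T|) := by
    have h2 : |t| ≤ |T| + |t - T| := by
      have := abs_add_le T (t - T)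
      rwa [add_sub_cancel] at this
    have h3 := abs_nonneg T
    have h4 := abs_nonneg (t - T)
    nlinarith
  have h0 := abs_nonneg t
  have h5 : (1 + |t|) ^ μ ≤ (1 + |T|) ^ μ * (1 + |t - T|) ^ μ := by
    rw [← Real.mul_rpow (by positivity) (by positivity)]
    exact Real.rpow_le_rpow (by positivity) h1 hμ
  have h6 : (1 + |t - T|) ^ μ ≤ Real.exp (μ * |t - T|) := by
    have h7 : 1 + |t - T| ≤ Real.exp |t - T| := by
      have := Real.add_one_le_exp |t - T|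
      linarith
    calc (1 + |t - T|) ^ μ ≤ (Real.exp |t - T|) ^ μ := Real.rpow_le_rpow (by positivity) h7 hμ
      _ = _ := by rw [← Real.exp_mul, mul_comm]
  have h8 : Real.exp (μ * |t - T|) * Real.exp (-(t - T) ^ 2) ≤ Real.exp (μ ^ 2 / 4) := by
    rw [← Real.exp_add]
    apply Real.exp_le_exp.2
    have : (t - T) ^ 2 = |t - T| ^ 2 := (sq_abs _).symm
    rw [this]
    nlinarith [sq_nonneg (|t - T| - μ / 2)]
  calc (1 + |t|) ^ μ * Real.exp (-(t - T) ^ 2)
      ≤ ((1 + |T|) ^ μ * Real.exp (μ * |t - T|)) * Real.exp (-(t - T) ^ 2) := by gcongr; exact h5.trans (by gcongr)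
    _ = (1 + |T|) ^ μ * (Real.exp (μ * |t - T|) * Real.exp (-(t - T) ^ 2)) := by ring
    _ ≤ (1 + |T|) ^ μ * Real.exp (μ ^ 2 / 4) := by gcongr
    _ = _ := mul_comm _ _

lemma FF_line {σ μ C : ℝ} (hσ : 1 / 2 ≤ σ) (hσ2 : σ ≤ 2) (hμ : 0 ≤ μ)
    (h : ∀ t : ℝ, 1 ≤ |t| → ‖riemannZeta (σ + t * I)‖ ≤ C * |t| ^ μ) :
    ∃ A : ℝ, 1 ≤ A ∧ ∀ t : ℝ, ‖H353.FF (σ + t * I)‖ ≤ A * (1 + |t|) ^ (1 + μ) := by
  refine ⟨max (2 * |C|) 48, (by norm_num : (1 : ℝ) ≤ 48).trans (le_max_right _ _), fun t => ?_⟩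
  have h0 := abs_nonneg t
  have hp : 1 ≤ (1 + |t|) ^ (1 + μ) := Real.one_le_rpow (by linarith) (by linarith)
  have hre : ((σ : ℂ) + t * I).re = σ := by simp
  have him : ((σ : ℂ) + t * I).im = t := by simp
  rcases le_or_gt 1 |t| with h1 | h1
  · have hne : (σ : ℂ) + t * I ≠ 1 := by
      intro h2
      rw [h2] at him
      simp at him
      rw [← him, abs_zero] at h1
      linarith
    rw [show H353.FF ((σ : ℂ) + t * I) = ((σ : ℂ) + t * I - 1) * riemannZeta (σ + t * I) from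
      ZU.J_g2b.FF_ne hne, norm_mul]
    have h2 : ‖(σ : ℂ) + t * I - 1‖ ≤ 2 * (1 + |t|) := by
      refine (Complex.norm_le_abs_re_add_abs_im _).trans ?_
      rw [sub_re, sub_im, hre, him, one_re, one_im, sub_zero]
      have : |σ - 1| ≤ 1 := by rw [abs_le]; constructor <;> linarith
      linarith
    have h3 : |t| ^ μ ≤ (1 + |t|) ^ μ := Real.rpow_le_rpow h0 (by linarith) hμ
    calc ‖(σ : ℂ) + t * I - 1‖ * ‖riemannZeta (σ + t * I)‖ ≤ 2 * (1 + |t|) * (C * |t| ^ μ) :=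
          mul_le_mul h2 (h t h1) (norm_nonneg _) (by positivity)
      _ ≤ 2 * (1 + |t|) * (|C| * (1 + |t|) ^ μ) := by
          apply mul_le_mul_of_nonneg_left _ (by positivity)
          calc C * |t| ^ μ ≤ |C| * |t| ^ μ := mul_le_mul_of_nonneg_right (le_abs_self _) (by positivity)
            _ ≤ _ := mul_le_mul_of_nonneg_left h3 (abs_nonneg _)
      _ = (2 * |C|) * (1 + |t|) ^ (1 + μ) := by
          rw [Real.rpow_add (by positivity), Real.rpow_one]; ring
      _ ≤ _ := mul_le_mul_of_nonneg_right (le_max_left _ _) (by positivity)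
  · have h2 := H353.FF_bound (1 / 2) (by norm_num) ((σ : ℂ) + t * I) (by rw [hre]; exact hσ)
    have h3 : ‖(σ : ℂ) + t * I‖ ≤ 3 := by
      refine (Complex.norm_le_abs_re_add_abs_im _).trans ?_
      rw [hre, him, abs_of_nonneg (by linarith)]
      linarith
    have h4 := norm_nonneg ((σ : ℂ) + t * I)
    have h5 : ‖H353.FF (σ + t * I)‖ ≤ 48 := by
      refine h2.trans ?_
      have : (1 + ‖(σ : ℂ) + t * I‖) ^ 2 ≤ 4 ^ 2 := pow_le_pow_left₀ (by positivity) (by linarith) 2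
      norm_num at this ⊢
      linarith
    calc ‖H353.FF (σ + t * I)‖ ≤ 48 * 1 := by linarith
      _ ≤ max (2 * |C|) 48 * (1 + |t|) ^ (1 + μ) :=
        mul_le_mul (le_max_right _ _) hp zero_le_one (le_trans (by norm_num) (le_max_right _ _))

theorem interp {l u a b A B : ℝ} (hl : 1 / 2 ≤ l) (hlu : l < u) (hu : u ≤ 2) (ha : 0 ≤ a) (hb : 0 ≤ b)
    (hA : ∀ t : ℝ, ‖H353.FF (l + t * I)‖ ≤ A * (1 + |t|) ^ a)
    (hB : ∀ t : ℝ, ‖H353.FF (u + t * I)‖ ≤ B * (1 + |t|) ^ b) :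
    ∃ C : ℝ, 1 ≤ C ∧ ∀ σ : ℝ, l ≤ σ → σ ≤ u → ∀ T : ℝ,
      ‖H353.FF (σ + T * I)‖ ≤ C * (1 + |T|) ^ ((1 - (σ - l) / (u - l)) * a + (σ - l) / (u - l) * b) := by
  have hA0 : 0 ≤ A := by
    have h1 := hA 0
    rw [abs_zero, add_zero, Real.one_rpow, mul_one] at h1
    exact (norm_nonneg _).trans h1
  have hB0 : 0 ≤ B := by
    have h1 := hB 0
    rw [abs_zero, add_zero, Real.one_rpow, mul_one] at h1
    exact (norm_nonneg _).trans h1
  obtain ⟨A1, hA1⟩ : ∃ A1 : ℝ, A1 = max (A * (Real.exp 4 * Real.exp (a ^ 2 / 4))) 1 := ⟨_, rfl⟩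
  obtain ⟨B1, hB1⟩ : ∃ B1 : ℝ, B1 = max (B * (Real.exp 4 * Real.exp (b ^ 2 / 4))) 1 := ⟨_, rfl⟩
  have hA11 : 1 ≤ A1 := by rw [hA1]; exact le_max_right _ _
  have hB11 : 1 ≤ B1 := by rw [hB1]; exact le_max_right _ _
  refine ⟨A1 * B1, by nlinarith, ?_⟩
  intro σ hσ1 hσ2 T
  obtain ⟨f, hf⟩ : ∃ f : ℂ → ℂ, f = fun s => H353.FF s * cexp ((s - I * T) ^ 2) := ⟨_, rfl⟩
  have hexp : ∀ s : ℂ, ‖cexp ((s - I * T) ^ 2)‖ = Real.exp (s.re ^ 2) * Real.exp (-(s.im - T) ^ 2) := by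
    intro s
    rw [Complex.norm_exp, ← Real.exp_add]
    congr 1
    have : (s - I * T) ^ 2 = (s - I * T) * (s - I * T) := by ring
    rw [this, Complex.mul_re]
    simp only [sub_re, sub_im, mul_re, mul_im, I_re, I_im, ofReal_re, ofReal_im]
    ring
  have hfn : ∀ s : ℂ, ‖f s‖ = ‖H353.FF s‖ * (Real.exp (s.re ^ 2) * Real.exp (-(s.im - T) ^ 2)) := by
    intro s
    rw [hf, norm_mul, hexp]
  have hfd : Differentiable ℂ f := by
    rw [hf]
    have : Differentiable ℂ H353.FF := ZU.J_g2b.FF_diff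
    exact this.mul (by fun_prop)
  have hrep : ∀ s : ℂ, s = (s.re : ℂ) + s.im * I := fun s => (Complex.re_add_im s).symm
  have hline : ∀ (c M : ℝ) (k : ℝ) (s : ℂ), s.re = c → 1 / 2 ≤ c → c ≤ 2 → 0 ≤ k → 0 ≤ M →
      ‖H353.FF s‖ ≤ M * (1 + |s.im|) ^ k →
      ‖f s‖ ≤ M * (Real.exp 4 * Real.exp (k ^ 2 / 4)) * (1 + |T|) ^ k := by
    intro c M k s hs hc1 hc2 hk hM h1
    rw [hfn]
    have h2 := gmax hk s.im T
    have h3 : Real.exp (s.re ^ 2) ≤ Real.exp 4 := by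
      apply Real.exp_le_exp.2
      rw [hs]
      nlinarith
    have hpos : 0 ≤ (1 + |s.im|) ^ k := by positivity
    calc ‖H353.FF s‖ * (Real.exp (s.re ^ 2) * Real.exp (-(s.im - T) ^ 2))
        ≤ (M * (1 + |s.im|) ^ k) * (Real.exp 4 * Real.exp (-(s.im - T) ^ 2)) := by gcongr
      _ = M * Real.exp 4 * ((1 + |s.im|) ^ k * Real.exp (-(s.im - T) ^ 2)) := by ring
      _ ≤ M * Real.exp 4 * (Real.exp (k ^ 2 / 4) * (1 + |T|) ^ k) := by gcongr
      _ = _ := by ring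
  have hTa : 0 ≤ (1 + |T|) ^ a := by positivity
  have hTb : 0 ≤ (1 + |T|) ^ b := by positivity
  have key := Complex.HadamardThreeLines.norm_le_interp_of_mem_verticalClosedStrip' (f := f)
    (z := (σ : ℂ) + T * I) (a := A1 * (1 + |T|) ^ a) (b := B1 * (1 + |T|) ^ b) hlu (by
      unfold Complex.HadamardThreeLines.verticalClosedStrip
      simp only [mem_preimage, add_re, ofReal_re, mul_re, I_re, I_im, ofReal_im]
      constructor <;> linarith) hfd.diffContOnCl (by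
      refine ⟨27 * (Real.exp 4 * Real.exp (2 ^ 2 / 4)) * (1 + |T|) ^ (2 : ℝ), ?_⟩
      rintro _ ⟨s, hs, rfl⟩
      unfold Complex.HadamardThreeLines.verticalClosedStrip at hs
      have hs1 : l ≤ s.re := hs.1
      have hs2 : s.re ≤ u := hs.2
      refine hline s.re 27 2 s rfl (by linarith) (by linarith) (by norm_num) (by norm_num) ?_
      have h2 := H353.FF_bound (1 / 2) (by norm_num) s (by linarith)
      have h3 : ‖s‖ ≤ 2 + |s.im| := by
        refine (Complex.norm_le_abs_re_add_abs_im _).trans ?_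
        rw [abs_of_nonneg (by linarith : (0 : ℝ) ≤ s.re)]
        linarith
      have h4 := norm_nonneg s
      have h5 := abs_nonneg s.im
      have h6 : (1 + ‖s‖) ^ 2 ≤ (3 * (1 + |s.im|)) ^ 2 := pow_le_pow_left₀ (by positivity) (by linarith) 2
      have h7 : (1 + |s.im|) ^ (2 : ℝ) = (1 + |s.im|) ^ 2 := by
        rw [← Real.rpow_natCast]; norm_num
      rw [h7]
      norm_num at h2
      nlinarith) (by
      intro s hs
      have hs' : s.re = l := hs
      refine (hline l A a s hs' hl (by linarith) ha hA0 ?_).trans ?_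
      · have := hA s.im
        rw [← hs', ← hrep] at this
        exact this
      · apply mul_le_mul_of_nonneg_right _ hTa
        rw [hA1]; exact le_max_left _ _) (by
      intro s hs
      have hs' : s.re = u := hs
      refine (hline u B b s hs' (by linarith) hu hb hB0 ?_).trans ?_
      · have := hB s.im
        rw [← hs', ← hrep] at this
        exact this
      · apply mul_le_mul_of_nonneg_right _ hTb
        rw [hB1]; exact le_max_left _ _)
  have hre : ((σ : ℂ) + T * I).re = σ := by simp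
  have him : ((σ : ℂ) + T * I).im = T := by simp
  rw [hre] at key
  obtain ⟨lam, hlam⟩ : ∃ lam : ℝ, lam = (σ - l) / (u - l) := ⟨_, rfl⟩
  rw [← hlam] at key ⊢
  have hl0 : 0 ≤ lam := by rw [hlam]; apply div_nonneg <;> linarith
  have hl1 : lam ≤ 1 := by rw [hlam, div_le_one (by linarith)]; linarith
  have h1 : ‖H353.FF (σ + T * I)‖ ≤ ‖f (σ + T * I)‖ := by
    rw [hfn, hre, him, sub_self]
    have : 1 ≤ Real.exp (σ ^ 2) * Real.exp (-0 ^ 2) := by
      rw [← Real.exp_add]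
      apply Real.one_le_exp
      nlinarith
    exact le_mul_of_one_le_right (norm_nonneg _) this
  refine h1.trans (key.trans ?_)
  have hT1 : 1 ≤ 1 + |T| := by linarith [abs_nonneg T]
  rw [Real.mul_rpow (by linarith) hTa, Real.mul_rpow (by linarith) hTb, ← Real.rpow_mul (by linarith),
    ← Real.rpow_mul (by linarith)]
  have e1 : A1 ^ (1 - lam) ≤ A1 := by
    calc A1 ^ (1 - lam) ≤ A1 ^ (1 : ℝ) := Real.rpow_le_rpow_of_exponent_le hA11 (by linarith)
      _ = A1 := Real.rpow_one _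
  have e2 : B1 ^ lam ≤ B1 := by
    calc B1 ^ lam ≤ B1 ^ (1 : ℝ) := Real.rpow_le_rpow_of_exponent_le hB11 hl1
      _ = B1 := Real.rpow_one _
  calc A1 ^ (1 - lam) * (1 + |T|) ^ (a * (1 - lam)) * (B1 ^ lam * (1 + |T|) ^ (b * lam))
      = (A1 ^ (1 - lam) * B1 ^ lam) * ((1 + |T|) ^ (a * (1 - lam)) * (1 + |T|) ^ (b * lam)) := by ring
    _ ≤ (A1 * B1) * ((1 + |T|) ^ (a * (1 - lam)) * (1 + |T|) ^ (b * lam)) := by gcongr
    _ = _ := by
        rw [← Real.rpow_add (by linarith)]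
        congr 2
        ring

end Pool.Agent.W186.SX
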