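import Pool.Agent.W186.SX.IL

set_option autoImplicit false

/-!
# Sizes near height `T`
-/

namespace Pool.Agent.W186.SX

open Complex Filter Topology MeasureTheory Set
open Pool.Agent.H24R2.JP (XX HH Om)
open Pool.Agent.W186.HZ
open Pool.Agent.W186.DX (AF F_zero)
open Pool.Agent.W186.SN (plk)

lemma XX_abs (w : ℂ) (T : ℝ) : ‖XX (I * T + w)‖ = ‖XX ((|w.re| : ℝ) + I * ((T + w.im : ℝ) : ℂ))‖ := by
  rcases le_total 0 w.re with h | h
  · rw [abs_of_nonneg h]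
    congr 2
    apply Complex.ext <;> simp
  · rw [abs_of_nonpos h]
    have e : ((-w.re : ℝ) : ℂ) + I * ((T + w.im : ℝ) : ℂ) = -((starRingEnd ℂ) (I * T + w)) := by
      apply Complex.ext <;> simp [add_comm]
    rw [e, Pool.Agent.H24R2.JP.B1h.XX_neg, Pool.Agent.W186.DX.XX_conj, Complex.norm_conj]

lemma mv (R ε : ℝ) (hR : 0 ≤ R) (hε : 0 < ε) : ∃ T0 : ℝ, 410 ≤ T0 ∧ ∀ T h c : ℝ, T0 ≤ T → |h| ≤ 10 → |c| ≤ R →
    Real.exp (Om (T + h) * c) * ‖HH (I * ((T + h : ℝ) : ℂ))‖ ≤ Real.exp (Om T * (c + ε)) * ‖HH (I * T)‖ ∧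
    Real.exp (Om T * (c - ε)) * ‖HH (I * T)‖ ≤
      Real.exp (Om (T + h) * c) * ‖HH (I * ((T + h : ℝ) : ℂ))‖ := by
  obtain ⟨T2, hT2, hHm⟩ := HH_move
  obtain ⟨T4, hT4, hO⟩ := Om_large ((R + 10) / ε)
  refine ⟨max (T2 + 10) T4, by linarith [le_max_left (T2 + 10) T4], ?_⟩
  intro T h c hT hh hc
  have g2 : T2 + 10 ≤ T := (le_max_left _ _).trans hT
  have g4 : T4 ≤ T := (le_max_right _ _).trans hT
  have hO2 := hO T g4
  rw [div_le_iff₀ hε] at hO2
  have hT400 : 400 ≤ T := hT4.trans g4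
  have hh' := abs_le.1 hh
  have hOn := Om_half (T' := T + h) hT400 (by rw [add_sub_cancel_left]; linarith)
  have m1 := hHm T h (by linarith) (by linarith)
  have m2 := hHm (T + h) (-h) (by linarith) (by linarith)
  rw [abs_neg, add_neg_cancel_right] at m2
  have q : |(Om (T + h) - Om T) * c| ≤ R := by
    rw [abs_mul]
    calc |Om (T + h) - Om T| * |c| ≤ 1 * R := mul_le_mul (hOn.trans (by norm_num)) hc (abs_nonneg _) (by norm_num)
      _ = R := one_mul _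
  rw [abs_le] at q
  constructor
  · calc Real.exp (Om (T + h) * c) * ‖HH (I * ((T + h : ℝ) : ℂ))‖
        ≤ Real.exp (Om (T + h) * c) * (Real.exp |h| * ‖HH (I * T)‖) :=
          mul_le_mul_of_nonneg_left m1 (Real.exp_pos _).le
      _ = Real.exp (Om (T + h) * c + |h|) * ‖HH (I * T)‖ := by rw [← mul_assoc, ← Real.exp_add]
      _ ≤ _ := by
          apply mul_le_mul_of_nonneg_right _ (norm_nonneg _)
          apply Real.exp_le_exp.2
          linarith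
  · calc Real.exp (Om T * (c - ε)) * ‖HH (I * T)‖
        ≤ Real.exp (Om T * (c - ε)) * (Real.exp |h| * ‖HH (I * ((T + h : ℝ) : ℂ))‖) :=
          mul_le_mul_of_nonneg_left m2 (Real.exp_pos _).le
      _ = Real.exp (Om T * (c - ε) + |h|) * ‖HH (I * ((T + h : ℝ) : ℂ))‖ := by
          rw [← mul_assoc, ← Real.exp_add]
      _ ≤ _ := by
          apply mul_le_mul_of_nonneg_right _ (norm_nonneg _)
          apply Real.exp_le_exp.2
          linarith

/-- the conclusion that the exponent is at most `f |Re w|` -/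
def Up (f : ℝ → ℝ) (ε R : ℝ) : Prop := ∃ T0 : ℝ, 410 ≤ T0 ∧ ∀ (T : ℝ) (w : ℂ), T0 ≤ T → |w.re| ≤ R →
  |w.im| ≤ 10 → ‖XX (I * T + w)‖ ≤ Real.exp (Om T * (f |w.re| + ε)) * ‖HH (I * T)‖

lemma up_of (f : ℝ → ℝ) (R M : ℝ) (hM : ∀ r : ℝ, 0 ≤ r → r ≤ R → |f r| ≤ M)
    (h : ∀ ε : ℝ, 0 < ε → ∃ T0 : ℝ, ∀ T r : ℝ, T0 ≤ T → 0 ≤ r → r ≤ R →
      ‖XX (I * T + r)‖ ≤ Real.exp (Om T * (f r + ε)) * ‖HH (I * T)‖) (ε : ℝ) (hε : 0 < ε) : Up f ε R := by
  obtain ⟨T1, h1⟩ := h (min (ε / 2) 1) (lt_min (by linarith) one_pos)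
  obtain ⟨T2, hT2, h2⟩ := mv (|M| + 1) (ε / 2) (by positivity) (by linarith)
  refine ⟨max (T1 + 10) T2, hT2.trans (le_max_right _ _), fun T w hT hw1 hw2 => ?_⟩
  have g1 : T1 + 10 ≤ T := (le_max_left _ _).trans hT
  have g2 : T2 ≤ T := (le_max_right _ _).trans hT
  have hw2' := abs_le.1 hw2
  rw [XX_abs, add_comm ((|w.re| : ℝ) : ℂ)]
  have h3 := h1 (T + w.im) |w.re| (by linarith) (abs_nonneg _) hw1
  have hb := hM |w.re| (abs_nonneg _) hw1
  rw [abs_le] at hb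
  have hM2 := le_abs_self M
  have m1 := min_le_left (ε / 2) 1
  have m2 := min_le_right (ε / 2) 1
  have m3 : 0 < min (ε / 2) 1 := lt_min (by linarith) one_pos
  have h4 := (h2 T w.im (f |w.re| + min (ε / 2) 1) g2 hw2 (by
    rw [abs_le]
    constructor <;> linarith)).1
  refine h3.trans (h4.trans ?_)
  apply mul_le_mul_of_nonneg_right _ (norm_nonneg _)
  apply Real.exp_le_exp.2
  apply mul_le_mul_of_nonneg_left _ _
  · linarith
  · unfold Om
    have := Real.log_nonneg (show (1 : ℝ) ≤ T by linarith)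
    linarith

/-- convexity bound under `CT y` -/
lemma up_prof {y : ℝ} (hy0 : 0 ≤ y) (hy1 : y ≤ 1 / 2) (h : CT y) (ε R : ℝ) (hε : 0 < ε) (hR : 1 ≤ R) :
    Up (fun r => max r y) ε R := by
  refine up_of _ R R (fun r h0 h1 => ?_) (fun ε' hε' => ?_) ε hε
  · rw [abs_of_nonneg (h0.trans (le_max_left _ _))]
    exact max_le h1 (by linarith)
  · obtain ⟨T0, hT0, hp⟩ := prof hy0 hy1 h ε' R hε' hR
    refine ⟨T0, fun T r hT hr0 hr1 => ?_⟩
    have := hp T hT (r : ℂ) (by simpa using hr0) (by simpa using hr1) (by simp)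
    rwa [Complex.ofReal_re] at this

/-- lower bounds under `CT y` -/
lemma low_prof {y : ℝ} (hy0 : 0 ≤ y) (h : CT y) (ε R : ℝ) (hε : 0 < ε) (hR : 1 ≤ R) :
    ∃ T0 : ℝ, 410 ≤ T0 ∧ ∀ (T : ℝ) (w : ℂ), T0 ≤ T → y + ε ≤ w.re → w.re ≤ R → |w.im| ≤ 10 →
      Real.exp (Om T * (w.re - ε)) * ‖HH (I * T)‖ ≤ ‖XX (I * T + w)‖ := by
  obtain ⟨T1, hT1, h1⟩ := profL hy0 h (ε / 2) R (by linarith) hR
  obtain ⟨T2, hT2, h2⟩ := mv (R + ε) (ε / 2) (by linarith) (by linarith)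
  refine ⟨max (T1 + 10) T2, hT2.trans (le_max_right _ _), fun T w hT hw0 hw1 hw2 => ?_⟩
  have g1 : T1 + 10 ≤ T := (le_max_left _ _).trans hT
  have g2 : T2 ≤ T := (le_max_right _ _).trans hT
  have hw2' := abs_le.1 hw2
  have hwp : 0 ≤ w.re := by linarith
  rw [XX_abs, add_comm ((|w.re| : ℝ) : ℂ), abs_of_nonneg hwp]
  obtain ⟨-, -, b, -⟩ := h1 (T + w.im) (by linarith) (w.re : ℂ) (by simp; linarith)
    (by simpa using hw1) (by simp)
  rw [Complex.ofReal_re] at b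
  have h4 := (h2 T w.im (w.re - ε / 2) g2 hw2 (by
    rw [abs_le]
    constructor <;> linarith)).2
  refine le_trans ?_ b
  refine le_trans (le_of_eq ?_) h4
  congr 3
  ring

/-- An absolute constant: the growth on the critical line. -/
lemma crit : ∃ p C : ℝ, 0 < p ∧ p < 1 / 2 ∧ ∀ t : ℝ, 1 ≤ |t| →
    ‖riemannZeta (((1 / 2 : ℝ) : ℂ) + t * I)‖ ≤ C * |t| ^ (p / 2) := by
  obtain ⟨e0, he0, he1, hv⟩ := Pool.Agent.H986R2.K4.vdcQ (1 / 4) (by norm_num)
  obtain ⟨C, hC, hz⟩ := hv e0 he0 le_rfl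
  obtain ⟨T0, hT0, hb⟩ := plk (1 / 2 - e0) (1 / 4 * e0) C (by linarith) (by linarith) (by positivity)
    (by linarith) hC (by
      intro t ht
      have e : (1 / 2 + ((1 / 2 - e0 : ℝ) : ℂ) + t * I) = 1 - (e0 : ℂ) + t * I := by push_cast; ring
      rw [e]
      exact hz t ht) (e0 / 8) (by linarith)
  refine ⟨1 / 2 - e0 / 4, ?_⟩
  have key : Pool.Agent.W186.LH.Ex (1 / 2) ((1 / 2 - e0 / 4 - e0 / 8) / 2) := by
    refine Pool.Agent.W186.LH.Ex_of _ _ (by linarith) fun ε hε => ⟨T0, fun t ht => ?_⟩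
    have h1 := hb t ht 0 (by simp; linarith) (by simp)
    rw [add_zero] at h1
    have ht400 : 400 ≤ t := hT0.trans ht
    have him : 0 < (I * (t : ℂ)).im := by simp; linarith
    rw [Pool.Agent.H24R2.JP.zetaS.1 _ him, norm_mul] at h1
    have hHp : 0 < ‖HH (I * t)‖ := norm_pos_iff.2 (Pool.Agent.H24R2.JP.StirAux.HH_ne him)
    have h2 : ‖riemannZeta (1 / 2 + I * t)‖ ≤ Real.exp (Om t * (1 / 2 - e0 + 2 * (1 / 4 * e0) + e0 / 8)) := by
      refine le_of_mul_le_mul_left ?_ hHp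
      rw [mul_comm _ (Real.exp _)]
      exact h1
    have e2 : ((1 / 2 : ℝ) : ℂ) + t * I = 1 / 2 + I * t := by push_cast; ring
    rw [e2]
    refine h2.trans ?_
    rw [Real.rpow_def_of_pos (by linarith)]
    apply Real.exp_le_exp.2
    have hl : 0 ≤ Real.log t := Real.log_nonneg (by linarith)
    have e3 : Om t = Real.log t / 2 := rfl
    rw [e3]
    have : 0 ≤ Real.log t * e0 := by positivity
    have : 0 ≤ Real.log t * ε := by positivity
    nlinarith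
  obtain ⟨C1, hC1⟩ := key (e0 / 16) (by linarith)
  refine ⟨C1, by linarith, by linarith, fun t ht => ?_⟩
  refine (hC1 t ht).trans (le_of_eq ?_)
  congr 2
  ring

end Pool.Agent.W186.SX
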