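import Pool.Agent.W186.SX.Bw

set_option autoImplicit false

/-!
# Two symmetric shifts
-/

namespace Pool.Agent.W186.SX

open Complex Filter Topology MeasureTheory Set
open Pool.Agent.H24R2.JP (XX HH Om)
open Pool.Agent.W186.HZ
open Pool.Agent.W186.DX (AF F_zero F F_half F_fin)

/-- only finitely many zeros off the line -/
def OnL (c : ℂ) (h : ℝ) : Prop := {z : ℂ | z.re ≠ 0 ∧ XX (z + h) + c * XX (z - h) = 0}.Finite

lemma mono_h {y h : ℝ} (hy0 : 0 ≤ y) (hyh : y < h) (hh : h ≤ 1 / 2) (hct : CT y) (R : ℝ) (hR : 1 ≤ R) :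
    ∃ T0 : ℝ, 410 ≤ T0 ∧ ∀ T x : ℝ, T0 ≤ T → 0 < x → x ≤ R →
      ‖XX (I * T + ((x - h : ℝ) : ℂ))‖ < ‖XX (I * T + ((x + h : ℝ) : ℂ))‖ := by
  obtain ⟨ε, hε⟩ : ∃ ε : ℝ, ε = (h - y) / 8 := ⟨_, rfl⟩
  have hε0 : 0 < ε := by rw [hε]; linarith
  have hdx : Differentiable ℂ XX := Pool.Agent.H24R2.JP.B1h.XX_diff
  obtain ⟨T1, hT1, hu⟩ := up_prof hy0 (by linarith) hct ε (R + 1) hε0 (by linarith)
  obtain ⟨T2, hT2, hl⟩ := low_prof hy0 hct ε (R + 1) hε0 (by linarith)
  obtain ⟨T3, hT3, hp⟩ := profL hy0 hct ε (R + 1) hε0 (by linarith)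
  obtain ⟨T4, hT4, hO⟩ := Om_large 1
  refine ⟨max (max T1 T2) (max T3 T4), hT1.trans ((le_max_left _ _).trans (le_max_left _ _)),
    fun T x hT hx0 hx1 => ?_⟩
  have g1 : T1 ≤ T := ((le_max_left _ _).trans (le_max_left _ _)).trans hT
  have g2 : T2 ≤ T := ((le_max_right _ _).trans (le_max_left _ _)).trans hT
  have g3 : T3 ≤ T := ((le_max_left _ _).trans (le_max_right _ _)).trans hT
  have g4 : T4 ≤ T := ((le_max_right _ _).trans (le_max_right _ _)).trans hT
  have hO1 := hO T g4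
  have hTp : 0 < T := by linarith
  have him : 0 < (I * (T : ℂ)).im := by simpa using hTp
  have hHp : 0 < ‖HH (I * T)‖ := norm_pos_iff.2 (Pool.Agent.H24R2.JP.StirAux.HH_ne him)
  rcases le_or_gt (4 * ε) x with h1 | h1
  · have h2 : ‖XX (I * T + ((x - h : ℝ) : ℂ))‖ ≤ Real.exp (Om T * (max |x - h| y + ε)) * ‖HH (I * T)‖ := by
      have := hu T ((x - h : ℝ) : ℂ) g1 (by rw [Complex.ofReal_re, abs_le]; constructor <;> linarith) (by simp)
      rw [Complex.ofReal_re] at this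
      exact this
    have h3 := hl T ((x + h : ℝ) : ℂ) g2 (by rw [Complex.ofReal_re]; linarith) (by rw [Complex.ofReal_re]; linarith)
      (by simp)
    rw [Complex.ofReal_re] at h3
    refine lt_of_le_of_lt h2 (lt_of_lt_of_le ?_ h3)
    apply mul_lt_mul_of_pos_right _ hHp
    apply Real.exp_lt_exp.2
    apply mul_lt_mul_of_pos_left _ (by linarith)
    have h4 : max |x - h| y ≤ x + h - 3 * ε := max_le (by rw [abs_le]; constructor <;> linarith) (by linarith)
    linarith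
  · have e1 : ‖XX (I * T + ((x - h : ℝ) : ℂ))‖ = ‖XX (I * T + ((h - x : ℝ) : ℂ))‖ := by
      rw [XX_abs, XX_abs ((h - x : ℝ) : ℂ), Complex.ofReal_re, Complex.ofReal_re, abs_sub_comm,
        Complex.ofReal_im, Complex.ofReal_im]
    rw [e1]
    have hk := Pool.Agent.H296R2.LE.ratio_lower (f := fun v : ℝ => XX (I * T + (v : ℂ)))
      (f' := fun v : ℝ => deriv XX (I * T + (v : ℂ))) (a := h - x) (b := h + x) (K := ε * Om T) (l := -Om T)
      (by linarith) (fun v hv => by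
        have h5 : HasDerivAt XX (deriv XX (I * T + (v : ℂ))) (I * T + (v : ℂ)) := (hdx _).hasDerivAt
        have h6 : HasDerivAt (fun v : ℂ => XX (I * T + v)) (deriv XX (I * T + (v : ℂ))) (v : ℂ) :=
          h5.comp_const_add (I * T) _
        exact h6.comp_ofReal) (fun v hv => by
        obtain ⟨a1, a2, -, -⟩ := hp T g3 (v : ℂ) (by rw [Complex.ofReal_re]; linarith [hv.1])
          (by rw [Complex.ofReal_re]; linarith [hv.2]) (by simp)
        have e : deriv XX (I * T + (v : ℂ)) + ((-Om T : ℝ) : ℂ) * XX (I * T + (v : ℂ)) =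
            (logDeriv XX (I * T + (v : ℂ)) - (Om T : ℂ)) * XX (I * T + (v : ℂ)) := by
          rw [logDeriv_apply]
          field_simp
          push_cast
          ring
        rw [e, norm_mul]
        exact mul_le_mul_of_nonneg_right a2 (norm_nonneg _))
    have e2 : x + h = h + x := by ring
    rw [e2]
    refine lt_of_le_of_lt hk ?_
    obtain ⟨a1, -, -, -⟩ := hp T g3 ((h + x : ℝ) : ℂ) (by rw [Complex.ofReal_re]; linarith)
          (by rw [Complex.ofReal_re]; linarith) (by simp)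
    have h7 : Real.exp ((ε * Om T + -Om T) * (h + x - (h - x))) < 1 := by
      rw [Real.exp_lt_one_iff]
      have : ε ≤ 1 / 2 := by rw [hε]; linarith
      have h8 : (ε * Om T + -Om T) * (h + x - (h - x)) = -((1 - ε) * Om T * (2 * x)) := by ring
      rw [h8]
      have : 0 < (1 - ε) * Om T * (2 * x) := by
        apply mul_pos (mul_pos (by linarith) (by linarith)) (by linarith)
      linarith
    have h9 : 0 < ‖XX (I * T + ((h + x : ℝ) : ℂ))‖ := norm_pos_iff.2 a1
    calc ‖XX (I * T + ((h + x : ℝ) : ℂ))‖ * Real.exp ((ε * Om T + -Om T) * (h + x - (h - x)))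
        < ‖XX (I * T + ((h + x : ℝ) : ℂ))‖ * 1 := mul_lt_mul_of_pos_left h7 h9
      _ = _ := mul_one _

lemma D_refl (c : ℂ) (hc : ‖c‖ = 1) (h : ℝ) (z : ℂ) : XX (-(starRingEnd ℂ) z + h) + c * XX (-(starRingEnd ℂ) z - h) =
    c * (starRingEnd ℂ) (XX (z + h) + c * XX (z - h)) := by
  have e1 : -(starRingEnd ℂ) z + (h : ℂ) = -((starRingEnd ℂ) (z - h)) := by
    rw [map_sub, Complex.conj_ofReal]; ring
  have e2 : -(starRingEnd ℂ) z - (h : ℂ) = -((starRingEnd ℂ) (z + h)) := by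
    rw [map_add, Complex.conj_ofReal]; ring
  rw [e1, e2, Pool.Agent.H24R2.JP.B1h.XX_neg, Pool.Agent.H24R2.JP.B1h.XX_neg, Pool.Agent.W186.DX.XX_conj,
    Pool.Agent.W186.DX.XX_conj, map_add, map_mul]
  have hcc : c * (starRingEnd ℂ) c = 1 := by
    rw [Complex.mul_conj, Complex.normSq_eq_norm_sq, hc]; norm_num
  linear_combination (-(starRingEnd ℂ) (XX (z - h))) * hcc

lemma D_conj (c : ℂ) (h : ℝ) (z : ℂ) :
    XX ((starRingEnd ℂ) z + h) + (starRingEnd ℂ) c * XX ((starRingEnd ℂ) z - h) =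
    (starRingEnd ℂ) (XX (z + h) + c * XX (z - h)) := by
  have e1 : (starRingEnd ℂ) z + (h : ℂ) = (starRingEnd ℂ) (z + h) := by rw [map_add, Complex.conj_ofReal]
  have e2 : (starRingEnd ℂ) z - (h : ℂ) = (starRingEnd ℂ) (z - h) := by rw [map_sub, Complex.conj_ofReal]
  rw [e1, e2, Pool.Agent.W186.DX.XX_conj, Pool.Agent.W186.DX.XX_conj, map_add, map_mul]

theorem onl_of {y h : ℝ} (c : ℂ) (hc : ‖c‖ = 1) (hy0 : 0 ≤ y) (hyh : y < h) (hh : h ≤ 1 / 2) (hct : CT y) :
    OnL c h := by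
  obtain ⟨R0, hR0, hf⟩ := far (2 * h) (1 / 2) (by linarith) (by linarith) (by norm_num)
  obtain ⟨T0, hT0, hm⟩ := mono_h hy0 hyh hh hct R0 (by linarith)
  have hnm : ∀ c : ℂ, ‖c‖ = 1 → ∀ z : ℂ, XX (z + h) + c * XX (z - h) = 0 → ‖XX (z + h)‖ = ‖XX (z - h)‖ := by
    intro c hc z h0
    have h1 : XX (z + h) = -(c * XX (z - h)) := by linear_combination h0
    rw [h1, norm_neg, norm_mul, hc, one_mul]
  have hfar : ∀ c : ℂ, ‖c‖ = 1 → ∀ z : ℂ, R0 ≤ z.re → XX (z + h) + c * XX (z - h) ≠ 0 := by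
    intro c hc z hz h0
    obtain ⟨a1, a2⟩ := hf (z + h) (by simp; linarith)
    have e : z + (h : ℂ) - ((2 * h : ℝ) : ℂ) = z - h := by push_cast; ring
    rw [e] at a2
    have h2 := hnm c hc z h0
    have h3 := norm_pos_iff.2 a1
    linarith
  have hdx : Differentiable ℂ XX := Pool.Agent.H24R2.JP.B1h.XX_diff
  have hD : Differentiable ℂ fun z : ℂ => XX (z + h) + c * XX (z - h) :=
    (hdx.comp (differentiable_id.add_const _)).add ((hdx.comp (differentiable_id.sub_const _)).const_mul _)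
  have hT : ∀ c : ℂ, ‖c‖ = 1 → ∀ z : ℂ, 0 < z.re → T0 < z.im → XX (z + h) + c * XX (z - h) ≠ 0 := by
    intro c hc z hz hzi h0
    have hzr : z.re ≤ R0 := by
      by_contra hc'
      push Not at hc'
      exact hfar c hc z hc'.le h0
    have h1 := hm z.im z.re hzi.le hz hzr
    have e1 : I * (z.im : ℂ) + ((z.re - h : ℝ) : ℂ) = z - h := by
      apply Complex.ext <;> simp
    have e2 : I * (z.im : ℂ) + ((z.re + h : ℝ) : ℂ) = z + h := by
      apply Complex.ext <;> simp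
    rw [e1, e2] at h1
    have h3 := hnm c hc z h0
    linarith
  have hpos : ∀ z : ℂ, 0 < z.re → XX (z + h) + c * XX (z - h) = 0 → z.re ≤ R0 ∧ |z.im| ≤ T0 := by
    intro z hz h0
    refine ⟨?_, ?_⟩
    · by_contra hc'
      push Not at hc'
      exact hfar c hc z hc'.le h0
    · rw [abs_le]
      constructor
      · by_contra hc'
        push Not at hc'
        refine hT ((starRingEnd ℂ) c) (by rw [Complex.norm_conj]; exact hc) ((starRingEnd ℂ) z) (by simpa using hz)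
          (by simp; linarith) ?_
        rw [D_conj, h0, map_zero]
      · by_contra hc'
        push Not at hc'
        exact hT c hc z hz hc' h0
  have hK : IsCompact (Icc (-R0) R0 ×ℂ Icc (-T0) T0) := IsCompact.reProdIm isCompact_Icc isCompact_Icc
  refine (Pool.Agent.W186.LH.zfin hD ⟨(R0 : ℂ), hfar c hc _ (by simp)⟩ hK).subset ?_
  rintro z ⟨z1, z2⟩
  rcases lt_or_gt_of_ne z1 with h1 | h1
  · obtain ⟨b1, b2⟩ := hpos (-(starRingEnd ℂ) z) (by simpa using h1) (by rw [D_refl c hc, z2, map_zero, mul_zero])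
    rw [Complex.neg_re, Complex.conj_re] at b1
    rw [Complex.neg_im, Complex.conj_im, neg_neg, abs_le] at b2
    exact ⟨⟨⟨by linarith, by linarith⟩, b2⟩, z2⟩
  · obtain ⟨b1, b2⟩ := hpos z h1 z2
    rw [abs_le] at b2
    exact ⟨⟨⟨by linarith, b1⟩, b2⟩, z2⟩

/-- the converse: the symmetric sum is a shifted sum -/
lemma afb_of_onl {c : ℂ} {h : ℝ} (ho : OnL c h) : AFB (fun _ : Fin 1 => c) (fun _ => 2 * h) h := by
  intro ε hε
  have ho' : {z : ℂ | z.re ≠ 0 ∧ XX (z + h) + c * XX (z - h) = 0}.Finite := ho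
  refine (ho'.image fun z => z + (h : ℂ)).subset ?_
  rintro z ⟨z1, z2⟩
  refine ⟨z - h, ⟨?_, ?_⟩, by ring⟩
  · have : (z - (h : ℂ)).re = z.re - h := by simp
    rw [this]
    have : 0 < z.re - h := by linarith
    exact this.ne'
  · unfold BB at z2
    simp only [Finset.univ_unique, Finset.sum_singleton] at z2
    have e1 : z - (h : ℂ) + h = z := by ring
    have e2 : z - (h : ℂ) - h = z - ((2 * h : ℝ) : ℂ) := by push_cast; ring
    rw [e1, e2]
    exact z2

end Pool.Agent.W186.SX
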